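import Pool.Agent.Work.MP_7f9bcc_LAG.Base

set_option autoImplicit false

/-!
Block ALG: assembly of the commutative algebra (helper41).
-/

namespace Pool.Agent.Work.LAG

open Polynomial

/-- The domain step, for an arbitrary surjection onto an infinite domain. -/
theorem ALG.aux (hDOM : Stmt_DOM) (R : Type) [CommRing R] [Algebra.FiniteType ℤ R] (Γ : Type)
    [CommGroup Γ] [Group.FG Γ] [Infinite Γ] (c : Γ →* R)
    (hc : Algebra.adjoin ℤ (Set.range c) = ⊤) (D : Type) [CommRing D] [IsDomain D] [Infinite D]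
    (f : R →+* D) (hf : Function.Surjective f) (m : ℕ) (hm : 1 ≤ m) :
    ∃ γ : Γ, (∀ j : ℕ, 1 ≤ j → γ ^ j ≠ 1) ∧
      Dvg {q | q.Prime ∧ ¬ IsUnit (f (aeval (c (γ ^ m)) (NN q)))} := by
  set φ : R →ₐ[ℤ] D := f.toIntAlgHom with hφ
  have hφs : Function.Surjective φ := hf
  have hft : Algebra.FiniteType ℤ D := Algebra.FiniteType.of_surjective φ hφs
  set c' : Γ →* D := (f : R →* D).comp c with hc'
  have hadj : Algebra.adjoin ℤ (Set.range c') = ⊤ := by
    have h1 : Set.range c' = φ '' Set.range c := by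
      rw [← Set.range_comp]
      rfl
    rw [h1, ← AlgHom.map_adjoin, hc, Algebra.map_top]
    exact (AlgHom.range_eq_top φ).2 hφs
  obtain ⟨γ, hγ, hE⟩ := hDOM D Γ c' hadj m hm
  refine ⟨γ, hγ, ?_⟩
  have hx : ∀ q : ℕ, f (aeval (c (γ ^ m)) (NN q)) = aeval (c' (γ ^ m)) (NN q) := by
    intro q
    exact (Polynomial.aeval_algHom_apply φ (c (γ ^ m)) (NN q)).symm
  simp only [hx]
  exact hE

theorem stmt_ALG : Stmt_MAXP → Stmt_NAK → Stmt_PIG → Stmt_DOM → Stmt_ALG := by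
  intro hMAXP hNAK hPIG hDOM R _ _ A _ _ _ _ Γ _ _ _ c hc m hm
  have : IsNoetherianRing R := Algebra.FiniteType.isNoetherianRing ℤ R
  obtain ⟨P, hP, hAnn, hInf⟩ := hMAXP R A
  obtain ⟨γ, hγ, hE⟩ := ALG.aux hDOM R Γ c hc (R ⧸ P) (Ideal.Quotient.mk P)
    Ideal.Quotient.mk_surjective m hm
  obtain ⟨a, E', hsub, hd, ha⟩ := hPIG R A (fun q => aeval (c (γ ^ m)) (NN q))
    {q | q.Prime ∧ ¬ IsUnit (Ideal.Quotient.mk P (aeval (c (γ ^ m)) (NN q)))} hE (fun q hq =>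
      hNAK R A P hAnn _ hq.2)
  exact ⟨γ, hγ, a, E', fun q hq => (hsub hq).1, hd, ha⟩

end Pool.Agent.Work.LAG
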