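import Pool.Agent.Work.MP_7f9bcc_LAG.Base

set_option autoImplicit false

/-!
Block ALPHA of the project LAG (MP_7f9bcc): characteristic `p`.
-/

namespace Pool.Agent.Work.LAG

open Polynomial

namespace ALPHA

/-- A nonzero element of a domain of characteristic `p` which is integral over the prime field has
finite order. -/
theorem exists_pow_eq_one {D : Type} [CommRing D] [IsDomain D] (p : ℕ) [Fact p.Prime]
    [CharP D p] [Algebra (ZMod p) D] (v : D) (hv : IsUnit v) (hi : IsIntegral (ZMod p) v) :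
    ∃ n : ℕ, 1 ≤ n ∧ v ^ n = 1 := by
  classical
  have hfin : Module.Finite (ZMod p) (Algebra.adjoin (ZMod p) {v}) :=
    Module.Finite.iff_fg.2 hi.fg_adjoin_singleton
  have hF : Finite (Algebra.adjoin (ZMod p) {v}) := Module.finite_of_finite (ZMod p)
  let w : Algebra.adjoin (ZMod p) {v} := ⟨v, Algebra.self_mem_adjoin_singleton _ v⟩
  obtain ⟨i, j, hij, he⟩ := Finite.exists_ne_map_eq_of_infinite (fun n : ℕ => w ^ n)
  have key : ∀ i j : ℕ, i < j → w ^ i = w ^ j → ∃ n : ℕ, 1 ≤ n ∧ v ^ n = 1 := by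
    intro i j hij he
    refine ⟨j - i, by omega, ?_⟩
    have h1 : v ^ i = v ^ j := by
      have := congrArg Subtype.val he
      simpa [w] using this
    have h2 : v ^ i * v ^ (j - i) = v ^ i * 1 := by
      rw [← pow_add, Nat.add_sub_cancel' hij.le, mul_one, h1]
    exact (hv.pow i).mul_left_cancel h2
  rcases lt_or_gt_of_ne hij with h | h
  · exact key i j h he
  · exact key j i h he.symm

/-- Reduction modulo `p`. -/
theorem aeval_red (p : ℕ) {K : Type} [CommRing K] [Algebra (ZMod p) K] (x : K) (f : ℤ[X]) :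
    aeval x f = aeval x (f.map (Int.castRingHom (ZMod p))) := by
  rw [aeval_def, aeval_def, eval₂_map]
  congr 1
  exact RingHom.ext_int _ _

/-- The argument, over an algebraically closed field `K` of characteristic `p`. -/
theorem core {D : Type} [CommRing D] [IsDomain D] (p : ℕ) [hp : Fact p.Prime]
    [Algebra (ZMod p) D] (K : Type) [Field K] [Algebra (ZMod p) K] [CharP K p] [IsAlgClosed K]
    (v : D) (g : ℤ[X]) (hg0 : aeval v g ≠ 0)
    (hg : ∀ 𝔭 : Ideal ℤ[X], 𝔭.IsPrime → (∀ f : ℤ[X], aeval v f = 0 → f ∈ 𝔭) →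
      g ∉ 𝔭 → ∀ f ∈ 𝔭, ¬ IsUnit (aeval v f))
    (hker : ∀ f : ℤ[X], aeval v f = 0 → f.map (Int.castRingHom (ZMod p)) = 0) :
    ∃ q₀ : ℕ, ∀ q : ℕ, q.Prime → q₀ ≤ q → ¬ IsUnit (aeval v (NN q)) := by
  classical
  have hgb : g.map (Int.castRingHom (ZMod p)) ≠ 0 := by
    intro h
    apply hg0
    rw [aeval_red p, h, map_zero]
  let gK : K[X] := (g.map (Int.castRingHom (ZMod p))).map (algebraMap (ZMod p) K)
  have hgK : gK ≠ 0 := by
    intro h
    exact hgb ((Polynomial.map_eq_zero _).1 h)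
  refine ⟨p + 1 + ∑ x ∈ gK.roots.toFinset, orderOf x, ?_⟩
  intro q hq hle
  have hqp : q ≠ p := by
    intro h
    have : 0 ≤ ∑ x ∈ gK.roots.toFinset, orderOf x := Nat.zero_le _
    omega
  have hne : NeZero ((q : ℕ) : K) := by
    refine ⟨fun h => ?_⟩
    have h1 := (CharP.cast_eq_zero_iff K p q).1 h
    exact hqp ((Nat.prime_dvd_prime_iff_eq hp.out hq).1 h1).symm
  have hne' : NeZero q := ⟨hq.ne_zero⟩
  obtain ⟨ζ, hζ⟩ := HasEnoughRootsOfUnity.exists_primitiveRoot K q
  let 𝔭 : Ideal ℤ[X] := RingHom.ker (aeval ζ : ℤ[X] →ₐ[ℤ] K)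
  have hprime : 𝔭.IsPrime := RingHom.ker_isPrime _
  refine hg 𝔭 hprime ?_ ?_ (NN q) ?_
  · intro f hf
    change aeval ζ f = 0
    rw [aeval_red p, hker f hf, map_zero]
  · intro hmem
    have h1 : aeval ζ g = 0 := hmem
    rw [aeval_red p] at h1
    have h2 : ζ ∈ gK.roots.toFinset := by
      rw [Multiset.mem_toFinset, mem_roots hgK, IsRoot, eval_map]
      exact h1
    have h3 : orderOf ζ ≤ ∑ x ∈ gK.roots.toFinset, orderOf x :=
      Finset.single_le_sum (f := fun x => orderOf x) (fun _ _ => Nat.zero_le _) h2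
    rw [← hζ.eq_orderOf] at h3
    omega
  · change aeval ζ (NN q) = 0
    rw [aeval_NN]
    exact hζ.geom_sum_eq_zero hq.one_lt

end ALPHA

open ALPHA in
theorem stmt_ALPHA (hCHE : Stmt_CHE) : Stmt_ALPHA := by
  classical
  intro D _ _ _ p hp _ v hv hord
  let _ : Algebra (ZMod p) D := ZMod.algebra D p
  obtain ⟨g, hg0, hg⟩ := hCHE D v
  have hker : ∀ f : ℤ[X], aeval v f = 0 → f.map (Int.castRingHom (ZMod p)) = 0 := by
    intro f hf
    by_contra hne
    have halg : IsAlgebraic (ZMod p) v := ⟨_, hne, by rw [← aeval_red p]; exact hf⟩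
    obtain ⟨n, hn, h1⟩ := exists_pow_eq_one p v hv halg.isIntegral
    exact hord n hn h1
  have hch : CharP (AlgebraicClosure (ZMod p)) p :=
    charP_of_injective_algebraMap (algebraMap (ZMod p) (AlgebraicClosure (ZMod p))).injective p
  exact core p (AlgebraicClosure (ZMod p)) v g hg0 hg hker

end Pool.Agent.Work.LAG
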