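import Pool.Agent.Work.MP_7f9bcc_LAG.Base

set_option autoImplicit false

/-!
Block AN (helper64): the `n` for which `1 + ... + X ^ (n - 1)` and `F` generate the unit ideal
are sparse.
-/

namespace Pool.Agent.Work.LAG.AN

open Polynomial

/-- the bound for one root -/
lemma one_root (hL : Stmt_LIO) (hS : Stmt_SPA) (F : ℤ[X]) (hF : F ≠ 0)
    (hru : ∀ w : ℂ, aeval w F = 0 → ∀ n : ℕ, 1 ≤ n → w ^ n ≠ 1) (ε : ℝ) (hε : 0 < ε)
    (w : ℂ) (hw : aeval w F = 0) :
    ∃ c : ℝ, 0 < c ∧ ∃ E : Set ℕ, ¬ Dvg E ∧ ∀ n : ℕ, 1 ≤ n → n ∉ E →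
      c * (max 1 ‖w‖) ^ n * Real.exp (-ε * n) ≤ ‖w ^ n - 1‖ := by
  have hexp : ∀ n : ℕ, Real.exp (-ε * n) ≤ 1 := by
    intro n
    rw [Real.exp_le_one_iff]
    have : (0 : ℝ) ≤ n := Nat.cast_nonneg n
    nlinarith
  rcases lt_trichotomy ‖w‖ 1 with h | h | h
  · refine ⟨1 - ‖w‖, by linarith, ∅, not_dvg_of_finite Set.finite_empty, ?_⟩
    intro n hn _
    rw [max_eq_left h.le, one_pow, mul_one]
    have h1 : ‖w‖ ^ n ≤ ‖w‖ := by
      calc ‖w‖ ^ n ≤ ‖w‖ ^ 1 := pow_le_pow_of_le_one (norm_nonneg w) h.le hn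
        _ = ‖w‖ := pow_one _
    have h2 : 1 - ‖w‖ ≤ ‖w ^ n - 1‖ := by
      have h3 : ‖(1 : ℂ)‖ - ‖w ^ n‖ ≤ ‖1 - w ^ n‖ := norm_sub_norm_le _ _
      rw [norm_sub_rev, norm_one, norm_pow] at h3
      linarith
    calc (1 - ‖w‖) * Real.exp (-ε * n) ≤ (1 - ‖w‖) * 1 :=
          mul_le_mul_of_nonneg_left (hexp n) (by linarith)
      _ = 1 - ‖w‖ := mul_one _
      _ ≤ _ := h2
  · obtain ⟨B, hB, hB'⟩ := hL F w hF hw hru
    refine ⟨1, one_pos, {n : ℕ | ‖w ^ n - 1‖ < Real.exp (-ε * n)}, hS w B h hB hB' ε hε, ?_⟩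
    intro n _ hn
    rw [h, max_self, one_pow, mul_one, one_mul]
    simpa using hn
  · have hpos : 0 < ‖w‖ := by linarith
    refine ⟨1 - 1 / ‖w‖, ?_, ∅, not_dvg_of_finite Set.finite_empty, ?_⟩
    · have : 1 / ‖w‖ < 1 := by
        rw [div_lt_one hpos]
        exact h
      linarith
    · intro n hn _
      rw [max_eq_right h.le]
      have hc : 0 ≤ 1 - 1 / ‖w‖ := by
        have : 1 / ‖w‖ ≤ 1 := by
          rw [div_le_one hpos]
          exact h.le
        linarith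
      have h3 : ‖w ^ n‖ - ‖(1 : ℂ)‖ ≤ ‖w ^ n - 1‖ := norm_sub_norm_le _ _
      rw [norm_one, norm_pow] at h3
      have h4 : 1 ≤ ‖w‖ ^ n / ‖w‖ := by
        rw [le_div_iff₀ hpos, one_mul]
        calc ‖w‖ = ‖w‖ ^ 1 := (pow_one _).symm
          _ ≤ ‖w‖ ^ n := pow_le_pow_right₀ h.le hn
      have h5 : (1 - 1 / ‖w‖) * ‖w‖ ^ n = ‖w‖ ^ n - ‖w‖ ^ n / ‖w‖ := by
        ring
      have h6 : 0 ≤ (1 - 1 / ‖w‖) * ‖w‖ ^ n := mul_nonneg hc (by positivity)
      calc (1 - 1 / ‖w‖) * ‖w‖ ^ n * Real.exp (-ε * n) ≤ (1 - 1 / ‖w‖) * ‖w‖ ^ n * 1 :=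
            mul_le_mul_of_nonneg_left (hexp n) h6
        _ = ‖w‖ ^ n - ‖w‖ ^ n / ‖w‖ := by rw [mul_one, h5]
        _ ≤ ‖w ^ n - 1‖ := by linarith

/-- the bound for a multiset of roots -/
lemma many_roots (hL : Stmt_LIO) (hS : Stmt_SPA) (F : ℤ[X]) (hF : F ≠ 0)
    (hru : ∀ w : ℂ, aeval w F = 0 → ∀ n : ℕ, 1 ≤ n → w ^ n ≠ 1) (ε : ℝ) (hε : 0 < ε)
    (s : Multiset ℂ) : (∀ w ∈ s, aeval w F = 0) →
    ∃ c : ℝ, 0 < c ∧ ∃ E : Set ℕ, ¬ Dvg E ∧ ∀ n : ℕ, 1 ≤ n → n ∉ E →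
      c * ((s.map (fun w => max 1 ‖w‖)).prod) ^ n * Real.exp (-ε * (Multiset.card s) * n) ≤
        (s.map (fun w => ‖w ^ n - 1‖)).prod := by
  induction s using Multiset.induction_on with
  | empty =>
    intro _
    refine ⟨1, one_pos, ∅, not_dvg_of_finite Set.finite_empty, ?_⟩
    intro n _ _
    simp
  | cons w s ih =>
    intro h
    obtain ⟨c, hc, E, hE, hcE⟩ := ih (fun z hz => h z (Multiset.mem_cons_of_mem hz))
    obtain ⟨c', hc', E', hE', hcE'⟩ := one_root hL hS F hF hru ε hε w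
      (h w (Multiset.mem_cons_self w s))
    refine ⟨c' * c, mul_pos hc' hc, E' ∪ E, not_dvg_union hE' hE, ?_⟩
    intro n hn hnE
    rw [Set.mem_union, not_or] at hnE
    have h1 := hcE' n hn hnE.1
    have h2 := hcE n hn hnE.2
    have hP : 0 ≤ (s.map (fun w => max 1 ‖w‖)).prod := by
      apply Multiset.prod_nonneg
      intro a ha
      obtain ⟨z, _, rfl⟩ := Multiset.mem_map.1 ha
      exact le_trans zero_le_one (le_max_left _ _)
    have h3 : 0 ≤ c * ((s.map (fun w => max 1 ‖w‖)).prod) ^ n *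
        Real.exp (-ε * (Multiset.card s) * n) := by positivity
    have h4 := mul_le_mul h1 h2 h3 (norm_nonneg _)
    rw [Multiset.map_cons, Multiset.prod_cons, Multiset.map_cons, Multiset.prod_cons,
      Multiset.card_cons]
    refine le_trans (le_of_eq ?_) h4
    have h5 : Real.exp (-ε * ((Multiset.card s + 1 : ℕ) : ℝ) * n) =
        Real.exp (-ε * n) * Real.exp (-ε * (Multiset.card s) * n) := by
      rw [← Real.exp_add]
      congr 1
      push_cast
      ring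
    rw [h5, mul_pow]
    ring

end Pool.Agent.Work.LAG.AN

namespace Pool.Agent.Work.LAG

open Polynomial

/-- AN: the `n` for which `1 + ... + X ^ (n - 1)` and `F` generate the unit ideal are sparse. -/
theorem stmt_AN : Stmt_LIO → Stmt_SPA → Stmt_MAH → Stmt_RES → Stmt_AN := by
  intro hL hS hM hR F hd h0 hru
  have hF : F ≠ 0 := by
    rintro rfl
    simp at hd
  set R : Multiset ℂ := (F.map (Int.castRingHom ℂ)).roots with hRdef
  set M : ℝ := |(F.leadingCoeff : ℝ)| * (R.map (fun w => max 1 ‖w‖)).prod with hMdef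
  have hM1 : 1 < M := hM F hd h0 hru
  have hlog : 0 < Real.log M := Real.log_pos hM1
  set d : ℕ := Multiset.card R with hddef
  set ε : ℝ := Real.log M / (2 * (d + 1)) with hεdef
  have hε : 0 < ε := by positivity
  have hroots : ∀ w ∈ R, aeval w F = 0 := by
    intro w hw
    have h1 := (Polynomial.mem_roots'.1 hw).2
    rw [Polynomial.IsRoot.def, Polynomial.eval_map] at h1
    rw [Polynomial.aeval_def]
    exact h1
  obtain ⟨c, hc, E, hE, hcE⟩ := AN.many_roots hL hS F hF hru ε hε R hroots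
  have hlc : 0 < |(F.leadingCoeff : ℝ)| := by
    rw [abs_pos]
    exact_mod_cast Polynomial.leadingCoeff_ne_zero.2 hF
  set T : ℝ := |((F.eval 1 : ℤ) : ℝ)| with hT
  have hεd : ε * d ≤ Real.log M / 2 := by
    rw [hεdef, div_mul_eq_mul_div, div_le_div_iff₀ (by positivity) (by norm_num)]
    nlinarith
  refine not_dvg_of_subset ?_ (not_dvg_union hE
    (not_dvg_of_finite (Set.finite_Iic (⌈T * 2 / (c * Real.log M)⌉₊))))
  intro n hn
  by_cases hnE : n ∈ E
  · exact Or.inl hnE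
  right
  rcases Nat.eq_zero_or_pos n with rfl | hn1
  · exact Nat.zero_le _
  have h1 := hcE n hn1 hnE
  have h2 := hR F n hF hn1 hn
  have h3 : c * M ^ n * Real.exp (-ε * d * n) ≤ T := by
    rw [hT, ← h2, hMdef, mul_pow]
    calc c * (|(F.leadingCoeff : ℝ)| ^ n * ((R.map (fun w => max 1 ‖w‖)).prod) ^ n) *
          Real.exp (-ε * d * n)
        = |(F.leadingCoeff : ℝ)| ^ n * (c * ((R.map (fun w => max 1 ‖w‖)).prod) ^ n *
          Real.exp (-ε * d * n)) := by ring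
      _ ≤ _ := mul_le_mul_of_nonneg_left h1 (by positivity)
  have hnr : (0 : ℝ) < n := by exact_mod_cast hn1
  have h4 : Real.exp (n * (Real.log M / 2)) ≤ M ^ n * Real.exp (-ε * d * n) := by
    have h5 : M ^ n = Real.exp (n * Real.log M) := by
      rw [mul_comm, Real.exp_mul, Real.exp_log (by linarith), Real.rpow_natCast]
    rw [h5, ← Real.exp_add, Real.exp_le_exp]
    nlinarith
  have h6 : n * (Real.log M / 2) ≤ Real.exp (n * (Real.log M / 2)) := by
    have := Real.add_one_le_exp (n * (Real.log M / 2))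
    linarith
  have h7 : c * (n * (Real.log M / 2)) ≤ T := by
    calc c * (n * (Real.log M / 2)) ≤ c * Real.exp (n * (Real.log M / 2)) :=
          mul_le_mul_of_nonneg_left h6 hc.le
      _ ≤ c * (M ^ n * Real.exp (-ε * d * n)) := mul_le_mul_of_nonneg_left h4 hc.le
      _ = c * M ^ n * Real.exp (-ε * d * n) := by ring
      _ ≤ T := h3
  have h8 : (n : ℝ) ≤ T * 2 / (c * Real.log M) := by
    rw [le_div_iff₀ (by positivity)]
    nlinarith
  have h9 : (n : ℝ) ≤ (⌈T * 2 / (c * Real.log M)⌉₊ : ℝ) := le_trans h8 (Nat.le_ceil _)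
  exact_mod_cast h9

end Pool.Agent.Work.LAG
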