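import Pool.Agent.Work.MP_7f9bcc_LAG.Base

set_option autoImplicit false

/-!
Block BETA of the project LAG (MP_7f9bcc): `v` algebraic over `ℤ`, characteristic zero.
-/

namespace Pool.Agent.Work.LAG

open Polynomial

namespace BETA

/-- Clearing denominators. -/
theorem clear (u : ℚ[X]) : ∃ c : ℤ, c ≠ 0 ∧ ∃ u' : ℤ[X],
    u'.map (Int.castRingHom ℚ) = C (c : ℚ) * u := by
  obtain ⟨b, hbM, hb⟩ := IsLocalization.integerNormalization_spec (nonZeroDivisors ℤ) (S := ℚ) u
  refine ⟨b, nonZeroDivisors.ne_zero hbM,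
    IsLocalization.integerNormalization (nonZeroDivisors ℤ) u, ?_⟩
  have h1 : (algebraMap ℤ ℚ) = Int.castRingHom ℚ := rfl
  rw [← h1, hb]
  ext i
  rw [coeff_smul, coeff_C_mul, zsmul_eq_mul]

/-- Irreducible integral polynomials of positive degree and Bezout. -/
theorem bezout {F g : ℤ[X]} (hF : Irreducible F) (hd : F.natDegree ≠ 0) (hg : ¬ F ∣ g) :
    ∃ c : ℤ, c ≠ 0 ∧ ∃ a b : ℤ[X], a * F + b * g = C c := by
  have hprim : F.IsPrimitive := hF.isPrimitive hd
  have hFQ : Irreducible (F.map (Int.castRingHom ℚ)) :=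
    (Polynomial.IsPrimitive.Int.irreducible_iff_irreducible_map_cast hprim).1 hF
  have hnd : ¬ F.map (Int.castRingHom ℚ) ∣ g.map (Int.castRingHom ℚ) := by
    intro h
    apply hg
    have hg0 : g ≠ 0 := by
      rintro rfl
      exact hg (dvd_zero _)
    have h1 : g = C g.content * g.primPart := g.eq_C_content_mul_primPart
    have h2 : F.map (Int.castRingHom ℚ) ∣ g.primPart.map (Int.castRingHom ℚ) := by
      rw [h1, Polynomial.map_mul, map_C] at h
      have h3 : IsUnit (C ((Int.castRingHom ℚ) g.content) : ℚ[X]) := by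
        rw [isUnit_C, isUnit_iff_ne_zero]
        have := content_eq_zero_iff.not.2 hg0
        simpa using this
      exact (h3.dvd_mul_left).1 h
    have h4 : F ∣ g.primPart :=
      (Polynomial.IsPrimitive.Int.dvd_iff_map_cast_dvd_map_cast F g.primPart hprim).2 h2
    rw [h1]
    exact h4.mul_left _
  obtain ⟨u, w, huw⟩ := (hFQ.coprime_iff_not_dvd).2 hnd
  obtain ⟨c1, hc1, u', hu'⟩ := clear u
  obtain ⟨c2, hc2, w', hw'⟩ := clear w
  refine ⟨c1 * c2, mul_ne_zero hc1 hc2, C c2 * u', C c1 * w', ?_⟩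
  apply Polynomial.map_injective (Int.castRingHom ℚ) Int.cast_injective
  rw [Polynomial.map_add, Polynomial.map_mul, Polynomial.map_mul, Polynomial.map_mul,
    Polynomial.map_mul, hu', hw', map_C, map_C, map_C]
  simp only [eq_intCast, Int.cast_mul, C_mul]
  linear_combination (C (c1 : ℚ) * C (c2 : ℚ)) * huw

/-- The order of a root of unity of prime order in a field of characteristic `l`. -/
theorem order_bound {k : Type*} [Field k] {l : ℕ} [Fact l.Prime] [CharP k l] {F : ℤ[X]}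
    (hF : F.IsPrimitive) {x : k} (hx : aeval x F = 0) {q : ℕ} (hq : q.Prime) (hxq : x ^ q = 1)
    (hx1 : x ≠ 1) : q ≤ l ^ F.natDegree := by
  let _ : Algebra (ZMod l) k := ZMod.algebra k l
  have hl : l.Prime := Fact.out
  set P : (ZMod l)[X] := F.map (Int.castRingHom (ZMod l)) with hP
  have hP0 : P ≠ 0 := by
    intro h
    have h1 : (C (l : ℤ)) ∣ F := by
      rw [C_dvd_iff_dvd_coeff]
      intro i
      have h2 : P.coeff i = 0 := by rw [h, coeff_zero]
      rw [hP, coeff_map] at h2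
      exact (ZMod.intCast_zmod_eq_zero_iff_dvd _ _).1 (by simpa using h2)
    have h2 := hF _ h1
    have h3 : l = 1 := by
      have := Int.isUnit_iff.1 h2
      omega
    exact hl.one_lt.ne' h3
  have hxP : aeval x P = 0 := by
    rw [hP, aeval_def, eval₂_map]
    rw [aeval_def] at hx
    rw [← hx]
    congr 1
    exact RingHom.ext_int _ _
  have hint : IsIntegral (ZMod l) x := (isAlgebraic_iff_isIntegral).1 ⟨P, hP0, hxP⟩
  have hdeg : (minpoly (ZMod l) x).natDegree ≤ F.natDegree :=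
    (natDegree_le_of_dvd (minpoly.dvd _ _ hxP) hP0).trans natDegree_map_le
  set K := IntermediateField.adjoin (ZMod l) ({x} : Set k) with hK
  have : FiniteDimensional (ZMod l) K := IntermediateField.adjoin.finiteDimensional hint
  have : Finite K := Module.finite_of_finite (ZMod l)
  let _ : Fintype K := Fintype.ofFinite K
  have hfr : Module.finrank (ZMod l) K = (minpoly (ZMod l) x).natDegree :=
    IntermediateField.adjoin.finrank hint
  have hcard : Fintype.card K = l ^ (minpoly (ZMod l) x).natDegree := by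
    rw [Module.card_eq_pow_finrank (K := ZMod l) (V := K), ZMod.card, hfr]
  let y : K := ⟨x, IntermediateField.mem_adjoin_simple_self _ x⟩
  have hy1 : y ≠ 1 := fun h => hx1 (congrArg Subtype.val h)
  have hyq : y ^ q = 1 := Subtype.ext hxq
  have hy0 : y ≠ 0 := by
    intro h
    rw [h, zero_pow hq.ne_zero] at hyq
    exact zero_ne_one hyq
  have hord : orderOf y = q := orderOf_eq_prime hyq hy1 (hp := ⟨hq⟩)
  have hpow : y ^ (Fintype.card K - 1) = 1 := FiniteField.pow_card_sub_one_eq_one y hy0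
  have hdvd : q ∣ Fintype.card K - 1 := by
    rw [← hord]
    exact orderOf_dvd_of_pow_eq_one hpow
  have hc1 : 1 < Fintype.card K := Fintype.one_lt_card
  have h5 : q ≤ Fintype.card K - 1 := Nat.le_of_dvd (by omega) hdvd
  calc q ≤ Fintype.card K := by omega
    _ = l ^ (minpoly (ZMod l) x).natDegree := hcard
    _ ≤ l ^ F.natDegree := Nat.pow_le_pow_right hl.pos hdeg

end BETA

open BETA in
theorem stmt_BETA : Stmt_CHE → Stmt_AN → Stmt_BETA := by
  intro hCHE hAN D _ _ _ _ v hv hvn hf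
  obtain ⟨f, hf0, hfv⟩ := hf
  -- an irreducible polynomial in the kernel
  obtain ⟨F, hFirr, hFv⟩ : ∃ F : ℤ[X], Irreducible F ∧ aeval v F = 0 := by
    induction f using WfDvdMonoid.induction_on_irreducible with
    | zero => exact absurd rfl hf0
    | unit u hu =>
      exfalso
      have := hu.map (aeval v : ℤ[X] →ₐ[ℤ] D)
      rw [hfv] at this
      exact not_isUnit_zero this
    | mul a i ha hi ih =>
      rw [map_mul, mul_eq_zero] at hfv
      rcases hfv with h | h
      · exact ⟨i, hi, h⟩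
      · exact ih ha h
  have hconst : ∀ c : ℤ, c ≠ 0 → aeval v (C c : ℤ[X]) ≠ 0 := by
    intro c hc h
    rw [aeval_C] at h
    simp only [algebraMap_int_eq, eq_intCast, Int.cast_eq_zero] at h
    exact hc h
  have hd : F.natDegree ≠ 0 := by
    intro h
    obtain ⟨c, hc⟩ := natDegree_eq_zero.1 h
    have hc0 : c ≠ 0 := by
      rintro rfl
      exact hFirr.ne_zero (by rw [← hc, C_0])
    exact hconst c hc0 (by rw [hc]; exact hFv)
  have hprim : F.IsPrimitive := hFirr.isPrimitive hd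
  -- the kernel is generated by F
  have hker : ∀ f : ℤ[X], aeval v f = 0 → F ∣ f := by
    intro f hf
    by_contra hnd
    obtain ⟨c, hc, a, b, hab⟩ := bezout hFirr hd hnd
    apply hconst c hc
    rw [← hab, map_add, map_mul, map_mul, hFv, hf]
    simp
  have hF0 : F.coeff 0 ≠ 0 := by
    intro h
    obtain ⟨e, he⟩ := X_dvd_iff.2 h
    rcases hFirr.isUnit_or_isUnit he with h1 | h1
    · exact not_isUnit_X h1
    · have h2 : aeval v e = 0 := by
        rw [he, map_mul, aeval_X] at hFv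
        rcases mul_eq_zero.1 hFv with h3 | h3
        · exact absurd h3 hv.ne_zero
        · exact h3
      have h3 := h1.map (aeval v : ℤ[X] →ₐ[ℤ] D)
      rw [h2] at h3
      exact not_isUnit_zero h3
  have hroot : ∀ w : ℂ, aeval w F = 0 → ∀ n : ℕ, 1 ≤ n → w ^ n ≠ 1 := by
    intro w hw n hn h1
    by_cases hdv : F ∣ X ^ n - 1
    · obtain ⟨e, he⟩ := hdv
      have h2 : aeval v (X ^ n - 1 : ℤ[X]) = 0 := by
        rw [he, map_mul, hFv, zero_mul]
      rw [map_sub, map_pow, aeval_X, map_one, sub_eq_zero] at h2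
      exact hvn n hn h2
    · obtain ⟨c, hc, a, b, hab⟩ := bezout hFirr hd hdv
      have h2 := congrArg (aeval w) hab
      rw [map_add, map_mul, map_mul, hw, map_sub, map_pow, aeval_X, map_one, h1, sub_self,
        mul_zero, mul_zero, add_zero, aeval_C] at h2
      simp only [algebraMap_int_eq, eq_intCast] at h2
      exact hc (by exact_mod_cast h2.symm)
  have hAN' := hAN F (Nat.one_le_iff_ne_zero.2 hd) hF0 hroot
  obtain ⟨g, hg0, hg⟩ := hCHE D v
  have hFg : ¬ F ∣ g := by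
    rintro ⟨e, he⟩
    apply hg0
    rw [he, map_mul, hFv, zero_mul]
  obtain ⟨c, hc, a, b, hab⟩ := bezout hFirr hd hFg
  refine (dvg_primes_diff (not_dvg_union hAN' (not_dvg_of_finite
    (Set.finite_le_nat (c.natAbs ^ F.natDegree + c.natAbs))))).mono ?_
  rintro q ⟨hq, hqE⟩
  refine ⟨hq, ?_⟩
  have hq1 : ¬ IsCoprime (NN q) F := fun h => hqE (Or.inl h)
  have hq2 : c.natAbs ^ F.natDegree + c.natAbs < q := by
    by_contra h
    exact hqE (Or.inr (not_lt.1 h))
  have hspan : Ideal.span ({NN q, F} : Set ℤ[X]) ≠ ⊤ := by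
    intro h
    have h1 : (1 : ℤ[X]) ∈ Ideal.span ({NN q, F} : Set ℤ[X]) := by rw [h]; trivial
    obtain ⟨u, w, huw⟩ := Ideal.mem_span_pair.1 h1
    exact hq1 ⟨u, w, huw⟩
  obtain ⟨𝔪, hmax, hle⟩ := Ideal.exists_le_maximal _ hspan
  have hNm : NN q ∈ 𝔪 := hle (Ideal.subset_span (by simp))
  have hFm : F ∈ 𝔪 := hle (Ideal.subset_span (by simp))
  refine hg 𝔪 hmax.isPrime (fun f hf => ?_) ?_ (NN q) hNm
  · obtain ⟨e, he⟩ := hker f hf
    rw [he]
    exact 𝔪.mul_mem_right _ hFm
  intro hgm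
  have hcm : C c ∈ 𝔪 := by
    rw [← hab]
    exact 𝔪.add_mem (𝔪.mul_mem_left _ hFm) (𝔪.mul_mem_left _ hgm)
  let _ : Field (ℤ[X] ⧸ 𝔪) := Ideal.Quotient.field 𝔪
  have hc0 : ((c : ℤ) : ℤ[X] ⧸ 𝔪) = 0 := by
    have h1 : Ideal.Quotient.mk 𝔪 (C c) = 0 := Ideal.Quotient.eq_zero_iff_mem.2 hcm
    rw [← h1]
    have h2 : (C c : ℤ[X]) = ((c : ℤ) : ℤ[X]) := by simp
    rw [h2, map_intCast]
  obtain ⟨l, hl⟩ := CharP.exists (ℤ[X] ⧸ 𝔪)
  have hldvd : (l : ℤ) ∣ c := (CharP.intCast_eq_zero_iff (ℤ[X] ⧸ 𝔪) l c).1 hc0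
  have hl0 : l ≠ 0 := by
    rintro rfl
    exact hc (by simpa using hldvd)
  have hlp : l.Prime := (CharP.char_is_prime_or_zero (ℤ[X] ⧸ 𝔪) l).resolve_right hl0
  have : Fact l.Prime := ⟨hlp⟩
  have hlc : l ≤ c.natAbs := Nat.le_of_dvd (Int.natAbs_pos.2 hc) (Int.natCast_dvd.1 hldvd)
  set x : ℤ[X] ⧸ 𝔪 := Ideal.Quotient.mk 𝔪 X with hx
  have haev : ∀ f : ℤ[X], aeval x f = Ideal.Quotient.mk 𝔪 f := by
    intro f
    have h1 : (aeval x : ℤ[X] →ₐ[ℤ] ℤ[X] ⧸ 𝔪) = (Ideal.Quotient.mkₐ ℤ 𝔪) := by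
      apply Polynomial.algHom_ext
      rw [aeval_X]
      rfl
    rw [h1]
    rfl
  have hxN : aeval x (NN q) = 0 := by
    rw [haev]
    exact Ideal.Quotient.eq_zero_iff_mem.2 hNm
  have hxF : aeval x F = 0 := by
    rw [haev]
    exact Ideal.Quotient.eq_zero_iff_mem.2 hFm
  have hxq : x ^ q = 1 := by
    have h1 := congrArg (aeval x) (NN_mul q)
    rw [map_mul, hxN, zero_mul, map_sub, map_pow, aeval_X, map_one] at h1
    exact (sub_eq_zero.1 h1.symm)
  by_cases hx1 : x = 1
  · have h0 : aeval x (NN q) = ∑ i ∈ Finset.range q, x ^ i := by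
      simp only [NN, map_sum, map_pow, aeval_X]
    rw [h0, hx1] at hxN
    simp only [one_pow, Finset.sum_const, Finset.card_range, nsmul_eq_mul, mul_one] at hxN
    have h1 : l ∣ q := (CharP.cast_eq_zero_iff (ℤ[X] ⧸ 𝔪) l q).1 hxN
    have h2 : l = q := (Nat.prime_dvd_prime_iff_eq hlp hq).1 h1
    omega
  · have h1 := order_bound (l := l) hprim hxF hq hxq hx1
    have h2 : l ^ F.natDegree ≤ c.natAbs ^ F.natDegree := Nat.pow_le_pow_left hlc _
    omega

end Pool.Agent.Work.LAG
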