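import Pool.Agent.Work.MP_7f9bcc_LAG.Interface

set_option autoImplicit false

/-!
Basic lemmas for the project LAG (MP_7f9bcc), free for use in all blocks.
-/

namespace Pool.Agent.Work.LAG

open Polynomial

/-! ### balls -/

section ball
variable {G : Type*} [Group G] {S : Set G}

theorem ball_mono {m n : ℕ} (h : m ≤ n) : ball S m ⊆ ball S n := by
  rintro g ⟨l, hl, h1, h2⟩
  exact ⟨l, hl.trans h, h1, h2⟩

theorem one_mem_ball (n : ℕ) : (1 : G) ∈ ball S n := ⟨[], by simp, by simp, rfl⟩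

theorem mul_mem_ball {x y : G} {m n : ℕ} (hx : x ∈ ball S m) (hy : y ∈ ball S n) :
    x * y ∈ ball S (m + n) := by
  obtain ⟨l, hl, h1, h2⟩ := hx
  obtain ⟨l', hl', h1', h2'⟩ := hy
  refine ⟨l ++ l', by rw [List.length_append]; omega, ?_, by rw [List.prod_append, h2, h2']⟩
  intro z hz
  rcases List.mem_append.1 hz with h | h
  · exact h1 z h
  · exact h1' z h

theorem pow_mem_ball {x : G} {m : ℕ} (hx : x ∈ ball S m) (n : ℕ) : x ^ n ∈ ball S (n * m) := by
  induction n with
  | zero => simpa using one_mem_ball 0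
  | succ n ih =>
    rw [pow_succ, Nat.succ_mul]
    exact mul_mem_ball ih hx

theorem ball_finite (hS : S.Finite) (n : ℕ) : (ball S n).Finite := by
  have hT : (S ∪ (fun x : G => x⁻¹) '' S).Finite := hS.union (hS.image _)
  have hf : Set.Finite {l : List G | l.length ≤ n ∧ ∀ x ∈ l, x ∈ S ∪ (fun x : G => x⁻¹) '' S} := by
    have := hT.to_subtype
    refine Set.Finite.subset (List.finite_length_le (S ∪ (fun x : G => x⁻¹) '' S :
      Set G) n |>.image (fun l => l.map Subtype.val)) ?_
    rintro l ⟨h1, h2⟩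
    refine ⟨l.pmap (fun x hx => (⟨x, hx⟩ : (S ∪ (fun x : G => x⁻¹) '' S : Set G))) h2, ?_, ?_⟩
    · simpa using h1
    · simp [List.map_pmap]
  refine (hf.image List.prod).subset ?_
  rintro g ⟨l, hl, h1, h2⟩
  refine ⟨l, ⟨hl, ?_⟩, h2⟩
  intro x hx
  rcases h1 x hx with h | h
  · exact Or.inl h
  · exact Or.inr ⟨x⁻¹, h, inv_inv x⟩

theorem exists_mem_ball (hS : Subgroup.closure S = ⊤) (g : G) : ∃ n, g ∈ ball S n := by
  have hg : g ∈ Subgroup.closure S := by rw [hS]; trivial
  induction hg using Subgroup.closure_induction with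
  | mem x hx => exact ⟨1, [x], by simp, by simpa using Or.inl hx, by simp⟩
  | one => exact ⟨0, one_mem_ball 0⟩
  | mul x y _ _ hx hy =>
    obtain ⟨m, hm⟩ := hx
    obtain ⟨n, hn⟩ := hy
    exact ⟨m + n, mul_mem_ball hm hn⟩
  | inv x _ hx =>
    obtain ⟨m, l, hl, h1, h2⟩ := hx
    refine ⟨m, (l.map (fun y => y⁻¹)).reverse, by simpa using hl, ?_, ?_⟩
    · intro y hy
      rw [List.mem_reverse, List.mem_map] at hy
      obtain ⟨z, hz, rfl⟩ := hy
      rw [inv_inv]
      exact (h1 z hz).symm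
    · rw [← h2, List.prod_inv_reverse]

end ball

/-! ### divergence -/

section dvg

theorem not_dvg_of_subset {E F : Set ℕ} (h : E ⊆ F) (hF : ¬ Dvg F) : ¬ Dvg E := by
  unfold Dvg at *
  rw [not_not] at *
  refine Summable.of_nonneg_of_le (fun n => ?_) (fun n => ?_) hF
  · exact Set.indicator_nonneg (fun _ _ => by positivity) _
  · exact Set.indicator_le_indicator_of_subset h (fun _ => by positivity) n

theorem Dvg.mono {E F : Set ℕ} (hE : Dvg E) (h : E ⊆ F) : Dvg F := by
  by_contra hF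
  exact not_dvg_of_subset h hF hE

theorem not_dvg_union {E F : Set ℕ} (hE : ¬ Dvg E) (hF : ¬ Dvg F) : ¬ Dvg (E ∪ F) := by
  unfold Dvg at *
  rw [not_not] at *
  refine Summable.of_nonneg_of_le (fun n => ?_) (fun n => ?_) (hE.add hF)
  · exact Set.indicator_nonneg (fun _ _ => by positivity) _
  · have h0 : (0 : ℝ) ≤ 1 / (n : ℝ) := by positivity
    by_cases h1 : n ∈ E <;> by_cases h2 : n ∈ F <;> simp [h1, h2, Set.indicator]

theorem not_dvg_of_finite {E : Set ℕ} (hE : E.Finite) : ¬ Dvg E := by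
  unfold Dvg
  rw [not_not]
  exact summable_of_hasFiniteSupport
    (f := Set.indicator E (fun q : ℕ => (1 : ℝ) / q)) (hE.subset (by
      intro x hx
      by_contra h
      exact hx (Set.indicator_of_notMem h _)))

theorem not_dvg_biUnion {ι : Type*} (s : Finset ι) (E : ι → Set ℕ) (h : ∀ i ∈ s, ¬ Dvg (E i)) :
    ¬ Dvg (⋃ i ∈ s, E i) := by
  classical
  induction s using Finset.induction_on with
  | empty => simpa using not_dvg_of_finite Set.finite_empty
  | insert a s ha ih =>
    rw [Finset.set_biUnion_insert]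
    exact not_dvg_union (h a (Finset.mem_insert_self a s))
      (ih fun i hi => h i (Finset.mem_insert_of_mem hi))

theorem dvg_primes : Dvg {q | q.Prime} := not_summable_one_div_on_primes

theorem dvg_primes_diff {E : Set ℕ} (hE : ¬ Dvg E) : Dvg {q | q.Prime ∧ q ∉ E} := by
  by_contra h
  exact not_dvg_of_subset (fun q hq => by
    by_cases h1 : q ∈ E
    · exact Or.inr h1
    · exact Or.inl ⟨hq, h1⟩) (not_dvg_union h hE) dvg_primes

/-- All primes from some place on. -/
theorem dvg_of_large {P : ℕ → Prop} (q₀ : ℕ) (h : ∀ q : ℕ, q.Prime → q₀ ≤ q → P q) :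
    Dvg {q | q.Prime ∧ P q} := by
  refine (dvg_primes_diff (not_dvg_of_finite (Set.finite_lt_nat q₀))).mono ?_
  rintro q ⟨h1, h2⟩
  exact ⟨h1, h q h1 (not_lt.1 h2)⟩

end dvg

/-! ### the polynomials `NN` -/

theorem aeval_NN {R : Type*} [CommRing R] (v : R) (q : ℕ) :
    aeval v (NN q) = ∑ i ∈ Finset.range q, v ^ i := by
  simp [NN]

theorem aeval_NN_end {R A : Type*} [CommRing R] [AddCommGroup A] [Module R A]
    (v : Module.End R A) (q : ℕ) :
    ∑ i ∈ Finset.range q, v ^ i = aeval v ((∑ i ∈ Finset.range q, X ^ i : R[X])) := by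
  simp

theorem NN_mul (q : ℕ) : NN q * (X - 1) = X ^ q - 1 := by
  rw [NN]
  exact geom_sum_mul X q

theorem NN_succ (q : ℕ) : NN (q + 1) = X * NN q + 1 := by
  rw [NN, NN, geom_sum_succ]

theorem NN_add (a b : ℕ) : NN (a + b) = NN a + X ^ a * NN b := by
  induction b with
  | zero => simp [NN]
  | succ b ih =>
    rw [← add_assoc, NN, Finset.sum_range_succ, ← NN, ih, NN, NN, NN, Finset.sum_range_succ]
    ring

/-- `NN k` is a multiple of `NN q` if `q ∣ k`. -/
theorem NN_dvd {q k : ℕ} (h : q ∣ k) : NN q ∣ NN k := by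
  obtain ⟨m, rfl⟩ := h
  induction m with
  | zero => simp [NN]
  | succ m ih =>
    rw [Nat.mul_succ, NN_add]
    exact dvd_add ih (Dvd.intro_left _ rfl)

/-- The Euclidean algorithm. -/
theorem NN_coprime {a b : ℕ} (h : Nat.Coprime a b) : IsCoprime (NN a) (NN b) := by
  induction a, b using Nat.gcd.induction with
  | H0 n =>
    have : n = 1 := by simpa using h
    subst this
    simpa [NN] using isCoprime_one_right
  | H1 m n hm ih =>
    have h1 : Nat.Coprime (n % m) m := by
      rw [Nat.Coprime, ← Nat.gcd_rec]; exact h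
    have h2 := ih h1
    have h3 : NN n = NN (m * (n / m)) + X ^ (m * (n / m)) * NN (n % m) := by
      rw [← NN_add, Nat.div_add_mod]
    obtain ⟨c, hc⟩ := NN_dvd (Dvd.intro (n / m) rfl : m ∣ m * (n / m))
    rw [h3, hc]
    have h4 : IsCoprime (NN m) (X ^ (m * (n / m)) * NN (n % m)) := by
      refine IsCoprime.mul_right (IsCoprime.pow_right ?_) h2.symm
      obtain ⟨m', rfl⟩ : ∃ m', m = m' + 1 := ⟨m - 1, by omega⟩
      rw [NN_succ]
      exact ⟨1, -NN m', by ring⟩
    obtain ⟨x, y, hxy⟩ := h4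
    exact ⟨x - c * y, y, by linear_combination hxy⟩

theorem NN_coprime_of_prime {p q : ℕ} (hp : p.Prime) (hq : q.Prime) (h : p ≠ q) :
    IsCoprime (NN p) (NN q) := NN_coprime ((Nat.coprime_primes hp hq).2 h)

theorem NN_natDegree_monic (q : ℕ) : (NN (q + 1)).natDegree = q ∧ (NN (q + 1)).Monic := by
  induction q with
  | zero => simp [NN]
  | succ q ih =>
    obtain ⟨h1, h2⟩ := ih
    rw [NN_succ (q + 1)]
    have h3 : (X * NN (q + 1)).natDegree = q + 1 := by
      rw [mul_comm, natDegree_mul_X h2.ne_zero, h1]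
    have h4 : (1 : ℤ[X]).natDegree < (X * NN (q + 1)).natDegree := by
      rw [h3, natDegree_one]; omega
    refine ⟨by rw [natDegree_add_eq_left_of_natDegree_lt h4, h3], ?_⟩
    refine (monic_X.mul h2).add_of_left ?_
    rw [degree_one]
    rw [degree_eq_natDegree (monic_X.mul h2).ne_zero, h3]
    exact_mod_cast Nat.succ_pos q

theorem NN_natDegree (q : ℕ) (hq : 1 ≤ q) : (NN q).natDegree = q - 1 ∧ (NN q).Monic := by
  obtain ⟨q, rfl⟩ : ∃ q', q = q' + 1 := ⟨q - 1, by omega⟩
  simpa using NN_natDegree_monic q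

/-! ### the action on the abelianisation -/

section act
variable {G : Type*} [Group G] (K : Subgroup G)

theorem cl_mul (x y : K) : cl K (x * y) = cl K x + cl K y := by
  simp [cl]

theorem cl_one : cl K 1 = 0 := by simp [cl]

theorem cl_inv (x : K) : cl K x⁻¹ = - cl K x := by simp [cl]

theorem cl_surjective : Function.Surjective (cl K) := by
  intro x
  obtain ⟨y, hy⟩ := QuotientGroup.mk_surjective (Additive.toMul x)
  exact ⟨y, hy⟩

theorem cl_eq_zero_iff (x : K) : cl K x = 0 ↔ x ∈ commutator K :=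
  (QuotientGroup.eq_one_iff x)

variable [K.Normal]

theorem cact_cl (g : G) (x : K) : cact K g (cl K x) = cl K (MulAut.conjNormal g x) := rfl

theorem cact_mul (g h : G) : cact K (g * h) = cact K g * cact K h := by
  ext x
  obtain ⟨y, rfl⟩ := cl_surjective K x
  rw [Module.End.mul_apply, cact_cl, cact_cl, cact_cl, map_mul]
  rfl

theorem cact_one : cact K (1 : G) = 1 := by
  ext x
  obtain ⟨y, rfl⟩ := cl_surjective K x
  rw [cact_cl, map_one]
  rfl

theorem cact_of_mem {g : G} (hg : g ∈ K) : cact K g = 1 := by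
  ext x
  obtain ⟨y, rfl⟩ := cl_surjective K x
  rw [cact_cl, Module.End.one_apply]
  have h1 : (MulAut.conjNormal g y : K) = ⟨g, hg⟩ * y * ⟨g, hg⟩⁻¹ := by
    ext; simp
  rw [h1, cl_mul, cl_mul, cl_inv, add_comm (cl K ⟨g, hg⟩), add_assoc, add_neg_cancel, add_zero]

end act

end Pool.Agent.Work.LAG
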