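import Pool.Agent.Work.MP_7f9bcc_LAG.Base

set_option autoImplicit false

namespace Pool.Agent.Work.LAG

open Polynomial

theorem stmt_CHE : Stmt_CHE := by
  intro D _ _ _ v
  set φ : ℤ[X] →+* D := (aeval v : ℤ[X] →ₐ[ℤ] D).toRingHom with hφ
  have hfin : φ.FiniteType := by
    have h1 : (algebraMap ℤ D).FiniteType := by
      rw [RingHom.finiteType_algebraMap]; infer_instance
    have h2 : algebraMap ℤ D = φ.comp (C : ℤ →+* ℤ[X]) := RingHom.ext_int _ _
    rw [h2] at h1
    exact RingHom.FiniteType.of_comp_finiteType h1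
  have hfp : φ.FinitePresentation := RingHom.FinitePresentation.of_finiteType.1 hfin
  obtain ⟨S, hS⟩ := PrimeSpectrum.exists_constructibleSetData_iff.2
    (PrimeSpectrum.isConstructible_range_comap hfp)
  have hbot : (⊥ : Ideal D).IsPrime := Ideal.isPrime_bot
  have hmem : PrimeSpectrum.comap φ ⟨⊥, hbot⟩ ∈ S.toSet := by
    rw [hS]; exact ⟨_, rfl⟩
  simp only [PrimeSpectrum.ConstructibleSetData.toSet, Set.mem_iUnion, exists_prop] at hmem
  obtain ⟨c, hcS, hc1, hc2⟩ := hmem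
  refine ⟨c.f, ?_, ?_⟩
  · intro h0
    apply hc2
    rw [PrimeSpectrum.mem_zeroLocus, Set.singleton_subset_iff]
    exact h0
  · intro 𝔭 h𝔭 hker hg f hf hu
    have hx : (⟨𝔭, h𝔭⟩ : PrimeSpectrum ℤ[X]) ∈ Set.range (PrimeSpectrum.comap φ) := by
      rw [← hS]
      simp only [PrimeSpectrum.ConstructibleSetData.toSet, Set.mem_iUnion, exists_prop]
      refine ⟨c, hcS, ?_, ?_⟩
      · rw [PrimeSpectrum.mem_zeroLocus]
        rw [PrimeSpectrum.mem_zeroLocus] at hc1
        intro y hy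
        exact hker y (hc1 hy)
      · rw [PrimeSpectrum.mem_zeroLocus, Set.singleton_subset_iff]
        exact hg
    obtain ⟨Q, hQ⟩ := hx
    have hfQ : f ∈ (PrimeSpectrum.comap φ Q).asIdeal := by rw [hQ]; exact hf
    have hfQ' : aeval v f ∈ Q.asIdeal := hfQ
    exact Q.isPrime.ne_top (Ideal.eq_top_of_isUnit_mem _ hfQ' hu)

end Pool.Agent.Work.LAG
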