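import Pool.Agent.Work.MP_7f9bcc_LAG.Base

set_option autoImplicit false

/-!
Block CNT: counting orbits.
-/

namespace Pool.Agent.Work.LAG

theorem stmt_CNT : Stmt_CNT := by
  classical
  intro G _ S hS E L g hE hg hinj n
  let F : Finset (Σ _ : ℕ, ℕ) :=
    ((Finset.range (n + 1)).filter (fun q => q ∈ E)).sigma (fun q => Finset.Icc 1 (n / q))
  have hF : F.card = pairs E n := by
    simp only [F, Finset.card_sigma, Nat.card_Icc, Nat.add_sub_cancel, pairs]
  let φ : (Σ _ : ℕ, ℕ) → Quotient (MulAction.orbitRel (MulAut G) G) :=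
    fun p => Quotient.mk (MulAction.orbitRel (MulAut G) G) (g (p.1 * p.2) p.1)
  have hmem : ∀ p ∈ F, p.1 ∈ E ∧ 1 ≤ p.2 ∧ 1 ≤ p.1 * p.2 ∧ p.1 * p.2 ≤ n := by
    rintro ⟨q, m⟩ hp
    simp only [F, Finset.mem_sigma, Finset.mem_filter, Finset.mem_range, Finset.mem_Icc] at hp
    obtain ⟨⟨_, hq⟩, hm1, hm2⟩ := hp
    refine ⟨hq, hm1, Nat.mul_pos (hE q hq) hm1, ?_⟩
    exact (Nat.mul_le_mul_left q hm2).trans (Nat.mul_div_le n q)
  have hφinj : Set.InjOn φ (F : Set (Σ _ : ℕ, ℕ)) := by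
    rintro ⟨q, m⟩ hp ⟨q', m'⟩ hp' h
    obtain ⟨h1, h2, h3, h4⟩ := hmem _ (Finset.mem_coe.1 hp)
    obtain ⟨h1', h2', h3', h4'⟩ := hmem _ (Finset.mem_coe.1 hp')
    have hex : ∃ α : MulAut G, α (g (q * m) q) = g (q' * m') q' := by
      have h5 := Quotient.exact h
      have h6 : g (q * m) q ∈ MulAction.orbit (MulAut G) (g (q' * m') q') := h5
      obtain ⟨α, hα⟩ := h6
      refine ⟨α⁻¹, ?_⟩
      have h7 : α (g (q' * m') q') = g (q * m) q := hα
      rw [← h7]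
      exact MulAut.inv_apply_self G α _
    obtain ⟨α, hα⟩ := hex
    obtain ⟨h8, h9⟩ := hinj (q * m) q (q' * m') q' h3 h1 (Dvd.intro m rfl) h3' h1'
      (Dvd.intro m' rfl) α hα
    subst h9
    have h10 : m = m' := Nat.eq_of_mul_eq_mul_left (hE q h1) h8
    subst h10
    rfl
  have hsub : ((F.image φ : Finset _) : Set (Quotient (MulAction.orbitRel (MulAut G) G))) ⊆
      (fun g : G => (Quotient.mk (MulAction.orbitRel (MulAut G) G) g)) '' ball S (L * n) := by
    intro x hx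
    obtain ⟨p, hp, rfl⟩ := Finset.mem_image.1 (Finset.mem_coe.1 hx)
    obtain ⟨h1, h2, h3, h4⟩ := hmem p hp
    refine ⟨g (p.1 * p.2) p.1, ?_, rfl⟩
    exact ball_mono (Nat.mul_le_mul_left L h4) (hg _ _ h3 h1 (Dvd.intro p.2 rfl))
  calc pairs E n = F.card := hF.symm
    _ = (F.image φ).card := (Finset.card_image_of_injOn hφinj).symm
    _ = ((F.image φ : Finset _) : Set _).ncard := (Set.ncard_coe_finset _).symm
    _ ≤ autGrowth S (L * n) := Set.ncard_le_ncard hsub ((ball_finite hS _).image _)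

end Pool.Agent.Work.LAG
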