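import Pool.Agent.Work.MP_7f9bcc_LAG.Base

set_option autoImplicit false

/-!
Block CONT of the project LAG (MP_7f9bcc): content.
-/

namespace Pool.Agent.Work.LAG

namespace CONT

/-- `w` is divisible by `d` modulo torsion -/
def DivT {Λ : Type} [AddCommGroup Λ] (d : ℤ) (w : Λ) : Prop :=
  ∃ u : Λ, ∃ j : ℕ, 1 ≤ j ∧ j • (w - d • u) = 0

theorem divT_map {Λ : Type} [AddCommGroup Λ] (β : Λ ≃+ Λ) (d : ℤ) (w : Λ) (h : DivT d w) :
    DivT d (β w) := by
  obtain ⟨u, j, hj, h⟩ := h
  refine ⟨β u, j, hj, ?_⟩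
  have := congrArg β h
  rw [map_nsmul, map_sub, map_zsmul, map_zero] at this
  exact this

theorem exists_content (Λ : Type) [AddCommGroup Λ] [AddGroup.FG Λ] :
    ∃ g : Λ → ℕ, (∀ (d : ℤ) (w : Λ), d.natAbs ∣ g w ↔ DivT d w) ∧
      (∀ (n : ℕ) (w : Λ), g (n • w) = n * g w) ∧
      (∀ w w' : Λ, (∃ j : ℕ, 1 ≤ j ∧ j • (w - w') = 0) → g w = g w') ∧
      (∀ w : Λ, g w = 0 → ∃ j : ℕ, 1 ≤ j ∧ j • w = 0) := by
  classical
  have : Module.Finite ℤ Λ := Module.Finite.iff_addGroup_fg.mpr inferInstance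
  set T := Submodule.torsion ℤ Λ with hT
  have : Module.Free ℤ (Λ ⧸ T) := inferInstance
  set b := Module.Free.chooseBasis ℤ (Λ ⧸ T)
  have hmemT : ∀ w : Λ, w ∈ T ↔ ∃ j : ℕ, 1 ≤ j ∧ j • w = 0 := by
    intro w
    rw [hT, Submodule.mem_torsion_iff]
    constructor
    · rintro ⟨⟨a, ha⟩, h⟩
      have ha0 : a ≠ 0 := nonZeroDivisors.ne_zero ha
      refine ⟨a.natAbs, Int.natAbs_pos.mpr ha0, ?_⟩
      have h' : a • w = 0 := h
      rcases Int.natAbs_eq a with h1 | h1
      · rw [h1, natCast_zsmul] at h'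
        exact h'
      · rw [h1, neg_smul, natCast_zsmul, neg_eq_zero] at h'
        exact h'
    · rintro ⟨j, hj, h⟩
      refine ⟨⟨(j : ℤ), ?_⟩, ?_⟩
      · rw [mem_nonZeroDivisors_iff_ne_zero]
        exact_mod_cast (by omega : j ≠ 0)
      · change (j : ℤ) • w = 0
        rw [natCast_zsmul]; exact h
  let g : Λ → ℤ := fun w => Finset.univ.gcd (fun i => b.repr (Submodule.Quotient.mk w) i)
  have hg : ∀ (d : ℤ) (w : Λ), d ∣ g w ↔ DivT d w := by
    intro d w
    change d ∣ Finset.univ.gcd (fun i => b.repr (Submodule.Quotient.mk w) i) ↔ _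
    rw [Finset.dvd_gcd_iff]
    constructor
    · intro h
      choose c hc using fun i => h i (Finset.mem_univ i)
      obtain ⟨u, hu⟩ := Submodule.Quotient.mk_surjective T (b.equivFun.symm c)
      refine ⟨u, ?_⟩
      rw [← hmemT, ← Submodule.Quotient.mk_eq_zero, Submodule.Quotient.mk_sub,
        Submodule.Quotient.mk_smul, hu, sub_eq_zero]
      apply b.equivFun.injective
      rw [map_smul, LinearEquiv.apply_symm_apply]
      funext i
      rw [Pi.smul_apply, smul_eq_mul, ← hc i]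
      rfl
    · rintro ⟨u, h⟩ i _
      rw [← hmemT, ← Submodule.Quotient.mk_eq_zero, Submodule.Quotient.mk_sub,
        Submodule.Quotient.mk_smul, sub_eq_zero] at h
      rw [h, map_smul, Finsupp.smul_apply, smul_eq_mul]
      exact dvd_mul_right _ _
  refine ⟨fun w => (g w).natAbs, ?_, ?_, ?_, ?_⟩
  · intro d w
    rw [← hg d w, Int.natAbs_dvd_natAbs]
  · intro n w
    have h1 : g (n • w) = normalize (n : ℤ) * g w := by
      change Finset.univ.gcd (fun i => b.repr (Submodule.Quotient.mk (n • w)) i) =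
        normalize (n : ℤ) * Finset.univ.gcd (fun i => b.repr (Submodule.Quotient.mk w) i)
      rw [← Finset.gcd_mul_left]
      congr 1
      funext i
      rw [Submodule.Quotient.mk_smul, map_nsmul, Finsupp.smul_apply, nsmul_eq_mul]
    change (g (n • w)).natAbs = n * (g w).natAbs
    rw [h1, Int.natAbs_mul]
    congr 1
    rw [← Int.abs_eq_normalize, Int.natAbs_abs]
    exact Int.natAbs_natCast n
  · intro w w' h
    rw [← hmemT, ← Submodule.Quotient.mk_eq_zero, Submodule.Quotient.mk_sub, sub_eq_zero] at h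
    change (g w).natAbs = (g w').natAbs
    change (Finset.univ.gcd (fun i => b.repr (Submodule.Quotient.mk w) i)).natAbs =
      (Finset.univ.gcd (fun i => b.repr (Submodule.Quotient.mk w') i)).natAbs
    rw [h]
  · intro w h
    have h0 : g w = 0 := Int.natAbs_eq_zero.mp h
    rw [← hmemT, ← Submodule.Quotient.mk_eq_zero]
    have h1 : ∀ i, b.repr (Submodule.Quotient.mk w) i = 0 := fun i =>
      Finset.gcd_eq_zero_iff.mp h0 i (Finset.mem_univ i)
    apply b.repr.injective
    rw [map_zero]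
    ext i
    exact h1 i

end CONT

theorem stmt_CONT : Stmt_CONT := by
  intro Λ _ _ β y hy k l hk hl h
  obtain ⟨g, hg1, hg2, hg3, hg4⟩ := CONT.exists_content Λ
  have hβ : g (β y) = g y := by
    apply Nat.dvd_antisymm
    · have h1 := (hg1 (g (β y) : ℤ) (β y)).mp (by rw [Int.natAbs_natCast])
      have h2 := CONT.divT_map β.symm _ _ h1
      rw [AddEquiv.symm_apply_apply] at h2
      have h3 := (hg1 (g (β y) : ℤ) y).mpr h2
      rwa [Int.natAbs_natCast] at h3
    · have h1 := (hg1 (g y : ℤ) y).mp (by rw [Int.natAbs_natCast])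
      have h2 := CONT.divT_map β _ _ h1
      have h3 := (hg1 (g y : ℤ) (β y)).mpr h2
      rwa [Int.natAbs_natCast] at h3
  have h1 := hg3 _ _ h
  rw [hg2, hg2, hβ] at h1
  have h0 : g y ≠ 0 := by
    intro h0
    obtain ⟨j, hj, hj2⟩ := hg4 y h0
    exact hy j hj hj2
  exact Nat.eq_of_mul_eq_mul_right (Nat.pos_of_ne_zero h0) h1

end Pool.Agent.Work.LAG
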