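import Pool.Agent.Work.MP_7f9bcc_LAG.Base

/-!
CORE: a finitely generated group has arbitrarily small characteristic subgroups of finite index.
-/

set_option autoImplicit false

namespace Pool.Agent.Work.LAG

namespace CORE

/-- there are only finitely many homomorphisms to a finite group -/
theorem finite_hom (G : Type*) [Group G] [Group.FG G] (P : Type*) [Group P] [Finite P] :
    Finite (G →* P) := by
  obtain ⟨S, hS, hfin⟩ := Group.fg_iff.1 (inferInstance : Group.FG G)
  have := hfin.to_subtype
  refine Finite.of_injective (fun (f : G →* P) (s : S) => f s) fun f g hfg => ?_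
  refine MonoidHom.eq_of_eqOn_dense hS fun x hx => ?_
  exact congrFun hfg ⟨x, hx⟩

/-- the intersection of the kernels of all homomorphisms to `P` -/
def core (G : Type*) [Group G] (P : Type*) [Group P] : Subgroup G := ⨅ ρ : G →* P, ρ.ker

theorem core_characteristic (G : Type*) [Group G] (P : Type*) [Group P] :
    (core G P).Characteristic := by
  rw [Subgroup.characteristic_iff_le_comap]
  intro φ x hx
  rw [Subgroup.mem_comap, core, Subgroup.mem_iInf]
  intro ρ
  have h1 := (Subgroup.mem_iInf.1 hx) (ρ.comp φ.toMonoidHom)
  exact h1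

theorem core_finiteIndex (G : Type*) [Group G] [Group.FG G] (P : Type*) [Group P] [Finite P] :
    (core G P).FiniteIndex := by
  have := finite_hom G P
  exact Subgroup.finiteIndex_iInf fun ρ => inferInstance

theorem core_le {G : Type*} [Group G] (H : Subgroup G) [H.FiniteIndex] :
    core G (Equiv.Perm (Fin (Nat.card (G ⧸ H)))) ≤ H := by
  have := H.finite_quotient_of_finiteIndex
  let e : G ⧸ H ≃ Fin (Nat.card (G ⧸ H)) := Finite.equivFin _
  intro x hx
  have h1 := (Subgroup.mem_iInf.1 hx)
    (e.permCongrHom.toMonoidHom.comp (MulAction.toPermHom G (G ⧸ H)))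
  have h2 : e.permCongrHom (MulAction.toPermHom G (G ⧸ H) x) = 1 := h1
  have h3 : MulAction.toPermHom G (G ⧸ H) x = 1 := by
    rw [← map_one e.permCongrHom] at h2
    exact e.permCongrHom.injective h2
  have h4 : x ∈ H.normalCore := by
    rw [Subgroup.normalCore_eq_ker]
    exact h3
  exact H.normalCore_le h4

end CORE

/-- **CORE** -/
theorem stmt_CORE : Stmt_CORE := by
  intro G _ _ H hH
  exact ⟨CORE.core G (Equiv.Perm (Fin (Nat.card (G ⧸ H)))), CORE.core_le H,
    CORE.core_characteristic _ _, CORE.core_finiteIndex _ _⟩

end Pool.Agent.Work.LAG
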