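import Pool.Agent.Work.MP_7f9bcc_LAG.Base

set_option autoImplicit false

/-!
Block DIVT of the project LAG (MP_7f9bcc): choice of `t`.
-/

namespace Pool.Agent.Work.LAG

namespace DIVT

variable {G : Type} [Group G]

theorem cl_eq_zero (N : Subgroup G) (x : N) : cl N x = 0 ↔ (x : G) ∈ ⁅N, N⁆ := by
  rw [cl_eq_zero_iff, ← Subgroup.map_subtype_commutator]
  constructor
  · intro h
    exact ⟨x, h, rfl⟩
  · rintro ⟨y, hy, hyx⟩
    have : y = x := Subtype.ext hyx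
    rwa [← this]

theorem cl_pow (N : Subgroup G) (x : N) (n : ℕ) : cl N (x ^ n) = n • cl N x := by
  induction n with
  | zero => rw [pow_zero, cl_one, zero_smul]
  | succ n ih => rw [pow_succ, cl_mul, ih, succ_nsmul]

theorem exists_equiv (N : Subgroup G) [hN : N.Characteristic] (α : MulAut G) :
    ∃ e : N ≃* N, ∀ x : N, ((e x : N) : G) = α (x : G) := by
  have h : N.map (α : G →* G) = N := Subgroup.characteristic_iff_map_eq.1 hN α
  exact ⟨(MulEquiv.subgroupMap α N).trans (MulEquiv.subgroupCongr h), fun x => rfl⟩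

theorem exists_beta (N : Subgroup G) [hN : N.Characteristic] (α : MulAut G) :
    ∃ (e : N ≃* N) (β : AbK N ≃+ AbK N), (∀ x : N, ((e x : N) : G) = α (x : G)) ∧
      ∀ x : N, β (cl N x) = cl N (e x) := by
  obtain ⟨e, he⟩ := exists_equiv N α
  exact ⟨e, MulEquiv.toAdditive e.abelianizationCongr, he, fun x => rfl⟩

theorem fg_abK [Group.FG G] (N : Subgroup G) [N.FiniteIndex] : AddGroup.FG (AbK N) := by
  have h2 : Group.FG N := Subgroup.fg_of_index_ne_zero N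
  have h3 : Group.FG (Abelianization N) := QuotientGroup.fg (commutator N)
  exact AddGroup.fg_iff_mul_fg.2 h3

end DIVT

open DIVT in
/-- DIVT -/
theorem stmt_DIVT (hCONT : Stmt_CONT) : Stmt_DIVT := by
  intro G _ _ N _ _ m t hm ht hinf htor α k l hk hl h
  have hfg : AddGroup.FG (AbK N) := fg_abK N
  obtain ⟨e, β, he, hβ⟩ := exists_beta N α
  obtain ⟨s, hs⟩ : ∃ s : N, s = ⟨t, ht⟩ := ⟨_, rfl⟩
  have hst : (s : G) = t := by rw [hs]
  obtain ⟨y, hy⟩ : ∃ y : AbK N, y = cl N s := ⟨_, rfl⟩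
  have hy0 : ∀ j : ℕ, 1 ≤ j → j • y ≠ 0 := by
    intro j hj h0
    rw [hy, ← cl_pow, cl_eq_zero] at h0
    apply hinf j hj
    have : ((s ^ j : N) : G) = t ^ j := by rw [Subgroup.coe_pow, hst]
    rwa [this] at h0
  have h1 : m • (k • β y - l • y) = 0 := by
    have h2 : cl N ((e s ^ m) ^ k * ((s ^ m) ^ l)⁻¹) = 0 := by
      rw [cl_eq_zero]
      have : (((e s ^ m) ^ k * ((s ^ m) ^ l)⁻¹ : N) : G) =
          (α (t ^ m)) ^ k * ((t ^ m) ^ l)⁻¹ := by
        rw [Subgroup.coe_mul, Subgroup.coe_inv, Subgroup.coe_pow, Subgroup.coe_pow,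
          Subgroup.coe_pow, Subgroup.coe_pow, he, hst, map_pow]
      rwa [this]
    rw [cl_mul, cl_inv, cl_pow, cl_pow, cl_pow, cl_pow, ← hβ, ← hy] at h2
    rw [smul_sub, smul_comm m k, smul_comm m l, sub_eq_add_neg]
    exact h2
  have hkl : k = l := hCONT (AbK N) β y hy0 k l hk hl ⟨m, hm, h1⟩
  refine ⟨hkl, ?_⟩
  have h3 : m • (β y - y) = 0 := by
    have h4 : (e s * s⁻¹ : N) ^ (m * k) ∈ commutator N := by
      rw [← cl_eq_zero_iff, cl_pow, cl_mul, cl_inv, ← hβ, ← hy, ← sub_eq_add_neg, mul_smul,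
        smul_sub k]
      rw [hkl] at h1 ⊢
      exact h1
    rw [← cl_eq_zero_iff, cl_eq_zero, Subgroup.coe_pow] at h4
    have h5 := htor _ (e s * s⁻¹ : N).2 ⟨m * k, Nat.mul_pos hm hk, h4⟩
    rw [← Subgroup.coe_pow, ← cl_eq_zero, cl_pow, cl_mul, cl_inv, ← hβ, ← hy,
      ← sub_eq_add_neg] at h5
    exact h5
  have h6 : cl N (e s ^ m * (s ^ m)⁻¹) = 0 := by
    rw [cl_mul, cl_inv, cl_pow, cl_pow, ← hβ, ← hy, ← sub_eq_add_neg, ← smul_sub]
    exact h3
  rw [cl_eq_zero] at h6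
  have : ((e s ^ m * (s ^ m)⁻¹ : N) : G) = α (t ^ m) * (t ^ m)⁻¹ := by
    rw [Subgroup.coe_mul, Subgroup.coe_inv, Subgroup.coe_pow, Subgroup.coe_pow, he, hst, map_pow]
  rwa [this] at h6

end Pool.Agent.Work.LAG
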