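import Pool.Agent.Work.MP_7f9bcc_LAG.Base

set_option autoImplicit false

/-!
Block DOM of the project LAG (MP_7f9bcc): domains generated by units.
-/

namespace Pool.Agent.Work.LAG

open Polynomial

namespace DOM

/-- A common exponent. -/
theorem exponent {D Γ : Type} [CommRing D] [CommGroup Γ] (hΓ : Group.FG Γ) (c : Γ →* D)
    (h : ∀ γ : Γ, ∃ n : ℕ, 1 ≤ n ∧ c γ ^ n = 1) : ∃ e : ℕ, 1 ≤ e ∧ ∀ γ : Γ, c γ ^ e = 1 := by
  obtain ⟨S, hS⟩ := hΓ.out
  choose n hn1 hn using h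
  refine ⟨∏ s ∈ S, n s, ?_, ?_⟩
  · exact Nat.one_le_iff_ne_zero.2 (Finset.prod_ne_zero_iff.2 fun s _ => by have := hn1 s; omega)
  intro γ
  have hγ : γ ∈ Subgroup.closure (S : Set Γ) := by rw [hS]; trivial
  induction hγ using Subgroup.closure_induction with
  | mem x hx =>
    obtain ⟨k, hk⟩ := Finset.dvd_prod_of_mem n (Finset.mem_coe.1 hx)
    rw [hk, pow_mul, hn, one_pow]
  | one => rw [map_one, one_pow]
  | mul x y _ _ hx hy => rw [map_mul, mul_pow, hx, hy, one_mul]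
  | inv x _ hx =>
    have h1 : c x⁻¹ * c x = 1 := by rw [← map_mul, inv_mul_cancel, map_one]
    have h2 : (c x⁻¹ * c x) ^ (∏ s ∈ S, n s) = 1 := by rw [h1, one_pow]
    rw [mul_pow, hx, mul_one] at h2
    exact h2

/-- An element of infinite order. -/
theorem infOrder (Γ : Type) [CommGroup Γ] [Group.FG Γ] [Infinite Γ] :
    ∃ γ : Γ, ∀ j : ℕ, 1 ≤ j → γ ^ j ≠ 1 := by
  by_contra hcon
  push Not at hcon
  have h1 : IsMulTorsion Γ := fun γ => by
    obtain ⟨j, hj, h2⟩ := hcon γ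
    exact isOfFinOrder_iff_pow_eq_one.2 ⟨j, hj, h2⟩
  exact not_finite_iff_infinite.2 (inferInstance : Infinite Γ) (CommGroup.finite_of_fg_isMulTorsion Γ h1)

end DOM

/-- **DOM** -/
theorem stmt_DOM (hT : Stmt_TOR) (hI : Stmt_INF) : Stmt_DOM := by
  intro D _ _ _ _ Γ _ hfg _ c hc m hm
  by_cases h : ∀ γ : Γ, ∃ n : ℕ, 1 ≤ n ∧ c γ ^ n = 1
  · obtain ⟨e, he1, he⟩ := DOM.exponent hfg c h
    obtain ⟨γ₀, hγ₀⟩ := DOM.infOrder Γ
    refine ⟨γ₀ ^ e, fun j hj => ?_, ?_⟩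
    · rw [← pow_mul]
      exact hγ₀ _ (Nat.mul_pos he1 hj)
    have hv : c ((γ₀ ^ e) ^ m) = 1 := by
      rw [map_pow, map_pow, he, one_pow]
    rw [hv]
    refine dvg_of_large 0 fun q hq _ => ?_
    rw [aeval_NN]
    have h1 : ∑ i ∈ Finset.range q, (1 : D) ^ i = (q : D) := by simp
    rw [h1]
    refine hT D {x : D | x ^ e = 1} ?_ (fun x hx => ⟨e, he1, hx⟩) ?_ q hq
    · classical
      refine (Finset.finite_toSet (nthRoots e (1 : D)).toFinset).subset fun x hx => ?_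
      rw [Finset.mem_coe, Multiset.mem_toFinset, mem_nthRoots he1]
      exact hx
    · rw [eq_top_iff, ← hc]
      refine Algebra.adjoin_mono ?_
      rintro x ⟨γ, rfl⟩
      exact he γ
  · push Not at h
    obtain ⟨γ, hγ⟩ := h
    refine ⟨γ, fun j hj h1 => hγ j hj ?_, ?_⟩
    · rw [← map_pow, h1, map_one]
    refine hI D (c (γ ^ m)) ((Group.isUnit (γ ^ m)).map c) fun n hn => ?_
    rw [map_pow, ← pow_mul]
    exact hγ _ (Nat.mul_pos hm hn)

end Pool.Agent.Work.LAG
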