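import Pool.Agent.Work.MP_7f9bcc_LAG.Base

set_option autoImplicit false

/-!
FIN: assembly of the theorem MAIN from the blocks.
-/

namespace Pool.Agent.Work.LAG.FIN

open Polynomial

/-- The action of `N` on the abelianisation of `N'`. -/
noncomputable def rho {G : Type} [Group G] (N : Subgroup G) [N.Normal] :
    Abelianization N →* Module.End ℤ (AbK ⁅N, N⁆) :=
  QuotientGroup.lift (commutator N)
    { toFun := fun x : N => cact ⁅N, N⁆ (x : G)
      map_one' := by rw [Subgroup.coe_one, cact_one]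
      map_mul' := fun x y => by rw [Subgroup.coe_mul, cact_mul] }
    (by
      intro x hx
      refine cact_of_mem ⁅N, N⁆ ?_
      rw [← Subgroup.map_subtype_commutator]
      exact ⟨x, hx, rfl⟩)

theorem rho_of {G : Type} [Group G] (N : Subgroup G) [N.Normal] (x : N) :
    rho N (Abelianization.of x) = cact ⁅N, N⁆ (x : G) := rfl

/-- The algebra homomorphism from the group ring. -/
noncomputable def phi {G : Type} [Group G] (N : Subgroup G) [N.Normal] :
    MonoidAlgebra ℤ (Abelianization N) →ₐ[ℤ] Module.End ℤ (AbK ⁅N, N⁆) :=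
  MonoidAlgebra.lift ℤ _ _ (rho N)

theorem phi_of {G : Type} [Group G] (N : Subgroup G) [N.Normal] (γ : Abelianization N) :
    phi N (MonoidAlgebra.of ℤ _ γ) = rho N γ := by
  simp [phi]

theorem adj_eq_top (Γ : Type) [CommGroup Γ] :
    @Algebra.adjoin ℤ (MonoidAlgebra ℤ Γ) _ _ (Ring.toIntAlgebra _)
      (Set.range (MonoidAlgebra.of ℤ Γ)) = ⊤ := by
  rw [eq_top_iff]
  rintro r -
  induction r using MonoidAlgebra.induction_on with
  | of g => exact @Algebra.subset_adjoin ℤ _ _ _ (Ring.toIntAlgebra _) _ _ ⟨g, rfl⟩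
  | add x y hx hy => exact add_mem hx hy
  | smul n x hx =>
    have := zsmul_mem hx n
    convert this using 1

theorem finType (Γ : Type) [CommGroup Γ] [Group.FG Γ] :
    @Algebra.FiniteType ℤ (MonoidAlgebra ℤ Γ) _ _ (Ring.toIntAlgebra _) := by
  have hΓfg' : Monoid.FG Γ := Group.fg_iff_monoid_fg.1 inferInstance
  have hft : Algebra.FiniteType ℤ (MonoidAlgebra ℤ Γ) := MonoidAlgebra.finiteType_of_fg
  have h : (Ring.toIntAlgebra (MonoidAlgebra ℤ Γ)) = MonoidAlgebra.algebra :=
    Subsingleton.elim _ _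
  rw [h]
  exact hft

/-- From superlinear growth of `pairs` to the growth function. -/
theorem superlinear_of {f a : ℕ → ℕ} {L : ℕ} (hf : Superlinear f) (ha : Monotone a)
    (h : ∀ n, f n ≤ a (L * n)) : Superlinear a := by
  intro C
  obtain ⟨n₀, hn₀⟩ := hf (2 * C * (L + 1))
  refine ⟨(L + 1) * (n₀ + 1), fun n hn => ?_⟩
  obtain ⟨n', hn'⟩ : ∃ n', n' = n / (L + 1) := ⟨_, rfl⟩
  have h1 : n₀ + 1 ≤ n' := by
    rw [hn', Nat.le_div_iff_mul_le (Nat.succ_pos L)]
    calc (n₀ + 1) * (L + 1) = (L + 1) * (n₀ + 1) := Nat.mul_comm _ _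
      _ ≤ n := hn
  have h2 : (L + 1) * n' ≤ n := by
    rw [hn']; exact Nat.mul_div_le n (L + 1)
  have h3 : n < (L + 1) * (n' + 1) := by
    rw [hn']
    exact Nat.lt_mul_div_succ n (Nat.succ_pos L)
  have h4 : L * n' ≤ n := le_trans (Nat.mul_le_mul_right n' (Nat.le_succ L)) h2
  calc C * n ≤ C * ((L + 1) * (n' + 1)) := Nat.mul_le_mul_left C h3.le
    _ ≤ C * ((L + 1) * (2 * n')) := by
        apply Nat.mul_le_mul_left
        apply Nat.mul_le_mul_left
        omega
    _ = 2 * C * (L + 1) * n' := by ring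
    _ ≤ f n' := hn₀ n' (by omega)
    _ ≤ a (L * n') := h n'
    _ ≤ a n := ha h4

theorem autGrowth_mono {G : Type} [Group G] {S : Set G} (hS : S.Finite) :
    Monotone (autGrowth S) := by
  intro m n h
  unfold autGrowth
  exact Set.ncard_le_ncard (Set.image_mono (ball_mono h)) ((ball_finite hS n).image _)

end Pool.Agent.Work.LAG.FIN

namespace Pool.Agent.Work.LAG

open Polynomial FIN

theorem stmt_MAIN (hPRS : Stmt_PRS) (hCNT : Stmt_CNT) (hTWI : Stmt_TWI) (hDIVT : Stmt_DIVT)
    (hTORE : Stmt_TORE) (hRED : Stmt_RED) (hINFA : Stmt_INFA) (hMODF : Stmt_MODF)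
    (hALG : Stmt_ALG) : Stmt_MAIN := by
  intro G _ S hSf hS H hH Q _ _ f hf hQ
  have hGfg : Group.FG G := ⟨⟨hSf.toFinset, by simpa using hS⟩⟩
  obtain ⟨N, hNc, hNi, hN⟩ := hRED G H hH Q f hf hQ
  obtain ⟨hI1, hI2⟩ := hINFA G N inferInstance hNi hN
  obtain ⟨m, hm, hm'⟩ := hTORE G N
  obtain ⟨T, hT⟩ := hMODF G N
  have hNfg : Group.FG N := inferInstance
  have hΓfg : Group.FG (Abelianization N) :=
    Group.fg_of_surjective (f := (Abelianization.of : N →* Abelianization N))
      (QuotientGroup.mk_surjective)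
  let : Module (MonoidAlgebra ℤ (Abelianization N)) (AbK ⁅N, N⁆) :=
    Module.compHom _ (phi N).toRingHom
  have hsmul : ∀ (r : MonoidAlgebra ℤ (Abelianization N)) (x : AbK ⁅N, N⁆), r • x = phi N r x :=
    fun _ _ => rfl
  have hfin : Module.Finite (MonoidAlgebra ℤ (Abelianization N)) (AbK ⁅N, N⁆) := by
    refine ⟨⟨T, ?_⟩⟩
    have h1 := hT (Submodule.span (MonoidAlgebra ℤ (Abelianization N))
      (T : Set (AbK ⁅N, N⁆))).toAddSubgroup ?_ ?_
    · rw [eq_top_iff]
      rintro x -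
      have : x ∈ (Submodule.span (MonoidAlgebra ℤ (Abelianization N))
        (T : Set (AbK ⁅N, N⁆))).toAddSubgroup := by rw [h1]; trivial
      exact this
    · intro g hg x hx
      have h2 : cact ⁅N, N⁆ g x
          = (MonoidAlgebra.of ℤ (Abelianization N) (Abelianization.of (⟨g, hg⟩ : N))) • x := by
        rw [hsmul, phi_of, rho_of]
      rw [h2]
      exact Submodule.smul_mem _ _ hx
    · intro x hx
      exact Submodule.subset_span hx
  have hft := finType (Abelianization N)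
  have hadj := adj_eq_top (Abelianization N)
  obtain ⟨γ, hγ, a, E, hEp, hEd, hne⟩ := hALG (MonoidAlgebra ℤ (Abelianization N))
    (AbK ⁅N, N⁆) (Abelianization N) (MonoidAlgebra.of ℤ (Abelianization N)) hadj m hm
  obtain ⟨t0, rfl⟩ : ∃ t0 : N, Abelianization.of t0 = γ := QuotientGroup.mk_surjective γ
  obtain ⟨a0, rfl⟩ := cl_surjective ⁅N, N⁆ a
  -- the powers of `t0`
  have ht : ∀ j : ℕ, 1 ≤ j → (t0 : G) ^ j ∉ ⁅N, N⁆ := by
    intro j hj hmem
    apply hγ j hj
    rw [← map_pow]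
    have h1 : (t0 ^ j : N) ∈ commutator N := by
      rw [← Subgroup.map_subtype_commutator] at hmem
      obtain ⟨y, hy, hy'⟩ := hmem
      have : y = t0 ^ j := Subtype.ext (by simpa using hy')
      rwa [← this]
    exact (QuotientGroup.eq_one_iff _).2 h1
  have hyp1 := hDIVT G N m (t0 : G) hm t0.2 ht hm'
  obtain ⟨t, ht'⟩ : ∃ t : G, t = (t0 : G) ^ m := ⟨_, rfl⟩
  have hyp2 : ∀ q ∈ E, ∀ b : AbK ⁅N, N⁆, cl ⁅N, N⁆ ⟨(a0 : G), a0.2⟩
      ≠ (∑ i ∈ Finset.range q, (cact ⁅N, N⁆ t) ^ i) b := by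
    intro q hq b h1
    have h3 := hne q hq b
    rw [aeval_NN] at h3
    apply h3
    rw [hsmul, map_sum]
    have h2 : ∑ i ∈ Finset.range q, phi N ((MonoidAlgebra.of ℤ (Abelianization N)
        ((Abelianization.of t0) ^ m)) ^ i) = ∑ i ∈ Finset.range q, (cact ⁅N, N⁆ t) ^ i := by
      apply Finset.sum_congr rfl
      intro i _
      have h4 : (Abelianization.of t0 : Abelianization N) ^ m = Abelianization.of (t0 ^ m) :=
        (map_pow _ _ _).symm
      rw [map_pow, phi_of, h4, rho_of, ht']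
      rfl
    rw [h2]
    exact h1
  have hdist := hTWI G ⁅N, N⁆ t (a0 : G) a0.2 E hEp (by rw [ht']; exact hyp1) hyp2
  obtain ⟨na, hna⟩ := exists_mem_ball hS (a0 : G)
  obtain ⟨nt, hnt⟩ := exists_mem_ball hS t
  have hcount := hCNT G S hSf E (na + nt)
    (fun k q => ((a0 : G) * t) ^ q * t ^ (k - q)) (fun q hq => (hEp q hq).one_lt.le) (by
      intro k q hk hq hqk
      have h1 : q ≤ k := Nat.le_of_dvd hk hqk
      have h2 := mul_mem_ball (pow_mem_ball (mul_mem_ball hna hnt) q) (pow_mem_ball hnt (k - q))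
      refine ball_mono ?_ h2
      calc q * (na + nt) + (k - q) * nt ≤ q * (na + nt) + (k - q) * (na + nt) := by
            apply Nat.add_le_add_left
            exact Nat.mul_le_mul_left _ (Nat.le_add_left nt na)
        _ = (q + (k - q)) * (na + nt) := by ring
        _ = (na + nt) * k := by rw [Nat.add_sub_cancel' h1, Nat.mul_comm]) hdist
  exact superlinear_of (hPRS E hEp hEd) (autGrowth_mono hSf) hcount

end Pool.Agent.Work.LAG
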