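import Pool.Agent.Work.MP_7f9bcc_LAG.Base

set_option autoImplicit false

namespace Pool.Agent.Work.LAG

open Polynomial

theorem GAMMA.NN_prime {q : ℕ} (hq : q.Prime) : Prime (NN q) := by
  haveI : Fact q.Prime := ⟨hq⟩
  have h1 : NN q = cyclotomic q ℤ := by rw [cyclotomic_prime]; rfl
  rw [h1]
  exact (cyclotomic.irreducible hq.pos).prime

theorem stmt_GAMMA : Stmt_CHE → Stmt_GAMMA := by
  intro hCHE D _ _ _ v hv
  obtain ⟨g, hg1, hg2⟩ := hCHE D v
  have hg0 : g ≠ 0 := by
    rintro rfl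
    simp at hg1
  refine ⟨g.natDegree + 2, fun q hq hle => ?_⟩
  have hp := GAMMA.NN_prime hq
  have hI : (Ideal.span {NN q}).IsPrime := (Ideal.span_singleton_prime hp.ne_zero).2 hp
  refine hg2 _ hI (fun f hf => ?_) ?_ (NN q) (Ideal.mem_span_singleton_self _)
  · rw [hv f hf]; exact Ideal.zero_mem _
  · rw [Ideal.mem_span_singleton]
    intro hd
    have h1 := natDegree_le_of_dvd hd hg0
    rw [(NN_natDegree q hq.one_lt.le).1] at h1
    omega

end Pool.Agent.Work.LAG
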