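import Mathlib

set_option autoImplicit false

/-!
The integral Heisenberg group: a solvable quotient of the free group of rank two which is not
virtually abelian.
-/

namespace Pool.Agent.Work.LAG

/-- The integral Heisenberg group. -/
@[ext] structure Heis where
  a : ℤ
  b : ℤ
  c : ℤ

namespace Heis

instance : Mul Heis := ⟨fun x y => ⟨x.a + y.a, x.b + y.b, x.c + y.c + x.a * y.b⟩⟩
instance : One Heis := ⟨⟨0, 0, 0⟩⟩
instance : Inv Heis := ⟨fun x => ⟨-x.a, -x.b, -x.c + x.a * x.b⟩⟩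

@[simp] theorem mul_a (x y : Heis) : (x * y).a = x.a + y.a := rfl
@[simp] theorem mul_b (x y : Heis) : (x * y).b = x.b + y.b := rfl
@[simp] theorem mul_c (x y : Heis) : (x * y).c = x.c + y.c + x.a * y.b := rfl
@[simp] theorem one_a : (1 : Heis).a = 0 := rfl
@[simp] theorem one_b : (1 : Heis).b = 0 := rfl
@[simp] theorem one_c : (1 : Heis).c = 0 := rfl
@[simp] theorem inv_a (x : Heis) : (x⁻¹).a = -x.a := rfl
@[simp] theorem inv_b (x : Heis) : (x⁻¹).b = -x.b := rfl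
@[simp] theorem inv_c (x : Heis) : (x⁻¹).c = -x.c + x.a * x.b := rfl

instance : Group Heis :=
  Group.ofLeftAxioms
    (by intro x y z; ext <;> simp <;> ring)
    (by intro x; ext <;> simp)
    (by intro x; ext <;> simp)

/-- The projection to `ℤ²`. -/
def proj : Heis →* Multiplicative (ℤ × ℤ) where
  toFun x := Multiplicative.ofAdd (x.a, x.b)
  map_one' := rfl
  map_mul' _ _ := rfl

theorem mem_ker (x : Heis) : x ∈ proj.ker ↔ x.a = 0 ∧ x.b = 0 := by
  rw [MonoidHom.mem_ker]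
  constructor
  · intro h
    have h' : (x.a, x.b) = (0 : ℤ × ℤ) := h
    simpa using h'
  · rintro ⟨h1, h2⟩
    show Multiplicative.ofAdd (x.a, x.b) = 1
    rw [h1, h2]
    rfl

instance : Group.IsSolvable Heis := by
  have h1 : Group.IsSolvable proj.ker := by
    have hc : ∀ x y : proj.ker, x * y = y * x := by
      intro x y
      obtain ⟨h1, h2⟩ := (mem_ker x.1).1 x.2
      obtain ⟨h3, h4⟩ := (mem_ker y.1).1 y.2
      apply Subtype.ext
      ext
      · simp [h1, h3]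
      · simp [h2, h4]
      · simp [h1, h3]; ring
    exact Group.isSolvable_of_comm hc
  exact Group.isSolvable_of_ker_le_range proj.ker.subtype proj (by simp)

theorem pow_x (k : ℕ) : (⟨1, 0, 0⟩ : Heis) ^ k = ⟨k, 0, 0⟩ := by
  induction k with
  | zero => rfl
  | succ k ih => rw [pow_succ, ih]; ext <;> simp

theorem pow_y (k : ℕ) : (⟨0, 1, 0⟩ : Heis) ^ k = ⟨0, k, 0⟩ := by
  induction k with
  | zero => rfl
  | succ k ih => rw [pow_succ, ih]; ext <;> simp

theorem not_virtually_abelian :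
    ¬ ∃ B : Subgroup Heis, B.FiniteIndex ∧ ∀ x ∈ B, ∀ y ∈ B, x * y = y * x := by
  rintro ⟨B, hB, hcomm⟩
  obtain ⟨k, hk, -, hkB⟩ := Subgroup.exists_pow_mem_of_index_ne_zero hB.index_ne_zero
    (⟨1, 0, 0⟩ : Heis)
  obtain ⟨l, hl, -, hlB⟩ := Subgroup.exists_pow_mem_of_index_ne_zero hB.index_ne_zero
    (⟨0, 1, 0⟩ : Heis)
  have h := hcomm _ hkB _ hlB
  rw [pow_x, pow_y] at h
  have h2 := congrArg Heis.c h
  simp at h2
  rcases h2 with h2 | h2
  · omega
  · omega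

/-- The map of the free group of rank two onto the Heisenberg group. -/
def ofFree : FreeGroup (Fin 2) →* Heis :=
  FreeGroup.lift (fun i => if i = 0 then ⟨1, 0, 0⟩ else ⟨0, 1, 0⟩)

theorem zpow_x (k : ℤ) : (⟨1, 0, 0⟩ : Heis) ^ k = ⟨k, 0, 0⟩ := by
  obtain ⟨n, rfl | rfl⟩ := k.eq_nat_or_neg
  · rw [zpow_natCast, pow_x]
  · rw [zpow_neg, zpow_natCast, pow_x]; ext <;> simp

theorem zpow_y (k : ℤ) : (⟨0, 1, 0⟩ : Heis) ^ k = ⟨0, k, 0⟩ := by
  obtain ⟨n, rfl | rfl⟩ := k.eq_nat_or_neg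
  · rw [zpow_natCast, pow_y]
  · rw [zpow_neg, zpow_natCast, pow_y]; ext <;> simp

theorem ofFree_surjective : Function.Surjective ofFree := by
  rintro ⟨a, b, c⟩
  obtain ⟨x, hx⟩ : ∃ x, ofFree x = ⟨1, 0, 0⟩ := ⟨FreeGroup.of 0, by simp [ofFree]⟩
  obtain ⟨y, hy⟩ : ∃ y, ofFree y = ⟨0, 1, 0⟩ := ⟨FreeGroup.of 1, by simp [ofFree]⟩
  refine ⟨y ^ b * x ^ a * (x * y ^ c * x⁻¹ * (y ^ c)⁻¹), ?_⟩
  simp only [map_mul, map_inv, map_zpow, hx, hy, zpow_x, zpow_y]
  ext <;> simp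

end Heis

end Pool.Agent.Work.LAG
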