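import Pool.Agent.Work.MP_7f9bcc_LAG.Base

/-!
INF: the three cases.
-/

set_option autoImplicit false

namespace Pool.Agent.Work.LAG

open Polynomial

/-- **INF** -/
theorem stmt_INF : Stmt_ALPHA → Stmt_GAMMA → Stmt_BETA → Stmt_INF := by
  intro hA hG hB D _ _ _ v hv hne
  obtain ⟨p, hp⟩ := CharP.exists D
  rcases CharP.char_is_prime_or_zero D p with h | h
  · have : Fact p.Prime := ⟨h⟩
    obtain ⟨q₀, hq⟩ := hA D p v hv hne
    exact dvg_of_large q₀ hq
  · subst h
    have : CharZero D := CharP.charP_to_charZero D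
    by_cases h1 : ∃ f : ℤ[X], f ≠ 0 ∧ aeval v f = 0
    · exact hB D v hv hne h1
    · push Not at h1
      obtain ⟨q₀, hq⟩ := hG D v fun f hf => by
        by_contra h0
        exact h1 f h0 hf
      exact dvg_of_large q₀ hq

end Pool.Agent.Work.LAG
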