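import Pool.Agent.Work.MP_7f9bcc_LAG.Base

/-!
INFA: the two layers are infinite.
-/

set_option autoImplicit false

open scoped commutatorElement

namespace Pool.Agent.Work.LAG

namespace INFA

variable {G : Type} [Group G]

theorem fin1 (N : Subgroup G) [N.FiniteIndex] (h : Finite (Abelianization N)) :
    (⁅N, N⁆ : Subgroup G).FiniteIndex := by
  have h1 : (_root_.commutator N).FiniteIndex := by
    have : Finite (N ⧸ _root_.commutator N) := h
    exact Subgroup.finiteIndex_of_finite_quotient
  have h2 : (⁅N, N⁆ : Subgroup G).subgroupOf N = _root_.commutator N := by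
    rw [← Subgroup.map_subtype_commutator, Subgroup.subgroupOf,
      Subgroup.comap_map_eq_self_of_injective N.subtype_injective]
  constructor
  rw [← Subgroup.relIndex_mul_index (Subgroup.commutator_le_self N)]
  refine mul_ne_zero ?_ ‹N.FiniteIndex›.index_ne_zero
  unfold Subgroup.relIndex
  rw [h2]
  exact h1.index_ne_zero

/-- the commutator of two elements of `N`, as an element of `[N, N]` -/
def co (N : Subgroup G) (x y : N) : (⁅N, N⁆ : Subgroup G) :=
  ⟨⁅(x : G), (y : G)⁆, Subgroup.commutator_mem_commutator x.2 y.2⟩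

theorem co_mul_left (N : Subgroup G) [N.Normal] (x x' y : N) (hx : cact ⁅N, N⁆ (x : G) = 1) :
    cl ⁅N, N⁆ (co N (x * x') y) = cl ⁅N, N⁆ (co N x y) + cl ⁅N, N⁆ (co N x' y) := by
  have h1 : co N (x * x') y = (MulAut.conjNormal (x : G) (co N x' y)) * co N x y := by
    apply Subtype.ext
    rw [Subgroup.coe_mul, MulAut.conjNormal_apply]
    simp only [co, Subgroup.coe_mul, commutatorElement_def]
    group
  rw [h1, cl_mul, ← cact_cl, hx, Module.End.one_apply, add_comm]

theorem co_mul_right (N : Subgroup G) [N.Normal] (x y y' : N) (hy : cact ⁅N, N⁆ (y : G) = 1) :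
    cl ⁅N, N⁆ (co N x (y * y')) = cl ⁅N, N⁆ (co N x y) + cl ⁅N, N⁆ (co N x y') := by
  have h1 : co N x (y * y') = co N x y * (MulAut.conjNormal (y : G) (co N x y')) := by
    apply Subtype.ext
    rw [Subgroup.coe_mul, MulAut.conjNormal_apply]
    simp only [co, Subgroup.coe_mul, commutatorElement_def]
    group
  rw [h1, cl_mul, ← cact_cl, hy, Module.End.one_apply]

/-- the action as a homomorphism -/
noncomputable def act (N : Subgroup G) [N.Normal] : G →* Module.End ℤ (AbK ⁅N, N⁆) where
  toFun := cact ⁅N, N⁆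
  map_one' := cact_one _
  map_mul' := cact_mul _

theorem main2 [Group.FG G] (N : Subgroup G) [N.Normal] [N.FiniteIndex]
    (h : Finite (AbK ⁅N, N⁆)) :
    ∃ M : Subgroup G, M ≤ N ∧ M.FiniteIndex ∧ ⁅M, M⁆ ≤ ⁅⁅N, N⁆, ⁅N, N⁆⁆ := by
  classical
  have hE : Finite (Module.End ℤ (AbK ⁅N, N⁆)) :=
    Finite.of_injective (fun f : Module.End ℤ (AbK ⁅N, N⁆) => (f : AbK ⁅N, N⁆ → AbK ⁅N, N⁆))
      DFunLike.coe_injective
  have hker : (act N).ker.FiniteIndex := by
    have h1 : (act N).toHomUnits.ker = (act N).ker := by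
      ext x
      rw [MonoidHom.mem_ker, MonoidHom.mem_ker, Units.ext_iff]
      rfl
    rw [← h1]
    exact Subgroup.finiteIndex_ker _
  set M1 : Subgroup N := (act N).ker.subgroupOf N with hM1
  have hM1f : M1.FiniteIndex := inferInstance
  have hNfg : Group.FG N := inferInstance
  have hM1fg : Group.FG M1 := inferInstance
  have hact : ∀ x : M1, cact ⁅N, N⁆ ((x : N) : G) = 1 := fun x => x.2
  obtain ⟨S, hS, hfin⟩ := Group.fg_iff.1 hM1fg
  have := hfin.to_subtype
  let φ : M1 →* (S → Multiplicative (AbK ⁅N, N⁆)) :=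
    { toFun := fun x s => Multiplicative.ofAdd (cl ⁅N, N⁆ (co N (x : N) ((s : M1) : N)))
      map_one' := by
        funext s
        have h1 : co N ((1 : M1) : N) ((s : M1) : N) = 1 := by
          apply Subtype.ext
          simp [co]
        rw [h1, cl_one]
        rfl
      map_mul' := by
        intro x y
        funext s
        rw [Subgroup.coe_mul, co_mul_left N _ _ _ (hact x)]
        rfl }
  have hφ : φ.ker.FiniteIndex := by
    have : Finite (Multiplicative (AbK ⁅N, N⁆)) := h
    exact Subgroup.finiteIndex_ker φ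
  have key : ∀ x : M1, x ∈ φ.ker → ∀ y : M1, cl ⁅N, N⁆ (co N (x : N) (y : N)) = 0 := by
    intro x hx y
    have hy : y ∈ Subgroup.closure S := by rw [hS]; trivial
    induction hy using Subgroup.closure_induction with
    | mem y hy =>
      have h1 := congrFun hx ⟨y, hy⟩
      exact h1
    | one =>
      have h1 : co N (x : N) ((1 : M1) : N) = 1 := by
        apply Subtype.ext
        simp [co]
      rw [h1, cl_one]
    | mul y z _ _ hy hz =>
      rw [Subgroup.coe_mul, co_mul_right N _ _ _ (hact y), hy, hz, add_zero]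
    | inv y _ hy =>
      have h1 := co_mul_right N (x : N) (y : N) ((y⁻¹ : M1) : N) (hact y)
      rw [← Subgroup.coe_mul, mul_inv_cancel, hy, zero_add] at h1
      rw [← h1]
      have h2 : co N (x : N) ((1 : M1) : N) = 1 := by
        apply Subtype.ext
        simp [co]
      rw [h2, cl_one]
  refine ⟨((φ.ker).map M1.subtype).map N.subtype, ?_, ?_, ?_⟩
  · exact Subgroup.map_subtype_le _
  · constructor
    rw [Subgroup.index_map_subtype, Subgroup.index_map_subtype]
    exact mul_ne_zero (mul_ne_zero hφ.index_ne_zero hM1f.index_ne_zero)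
      ‹N.FiniteIndex›.index_ne_zero
  · rw [Subgroup.commutator_le]
    rintro _ ⟨_, ⟨x, hx, rfl⟩, rfl⟩ _ ⟨_, ⟨y, hy, rfl⟩, rfl⟩
    have h1 := key x hx y
    rw [cl_eq_zero_iff] at h1
    rw [← Subgroup.map_subtype_commutator ⁅N, N⁆]
    exact ⟨_, h1, rfl⟩

end INFA

theorem stmt_INFA : Stmt_INFA := by
  intro G _ _ N hN hNf h
  constructor
  · by_contra h1
    rw [not_infinite_iff_finite] at h1
    exact h ⁅N, N⁆ (Subgroup.commutator_le_self N) (INFA.fin1 N h1) le_rfl
  · by_contra h1
    rw [not_infinite_iff_finite] at h1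
    obtain ⟨M, h2, h3, h4⟩ := INFA.main2 N h1
    exact h M h2 h3 h4

end Pool.Agent.Work.LAG
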