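import Mathlib

set_option autoImplicit false

/-!
MP_7f9bcc: automorphic growth.  See BLUEPRINT.md in this folder.

THEOREM.  Let `G` be a finitely generated group.  If some finite index subgroup `H` of `G` has a
solvable quotient which is not virtually abelian, then the automorphic growth of `G` is
superlinear (`a(n) / n → ∞`).
-/

namespace Pool.Agent.Work.LAG

open Polynomial

/-! ### Definitions -/

/-- Products of at most `n` elements of `S ∪ S⁻¹`. -/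
def ball {G : Type*} [Group G] (S : Set G) (n : ℕ) : Set G :=
  {g | ∃ l : List G, l.length ≤ n ∧ (∀ x ∈ l, x ∈ S ∨ x⁻¹ ∈ S) ∧ l.prod = g}

/-- Automorphic growth: the number of orbits of `Aut G` which meet the ball of radius `n`. -/
noncomputable def autGrowth {G : Type*} [Group G] (S : Set G) (n : ℕ) : ℕ :=
  ((fun g : G => (Quotient.mk (MulAction.orbitRel (MulAut G) G) g)) '' ball S n).ncard

/-- Growing faster than every linear function. -/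
def Superlinear (f : ℕ → ℕ) : Prop := ∀ C : ℕ, ∃ n₀ : ℕ, ∀ n ≥ n₀, C * n ≤ f n

/-- The sum of the reciprocals of the elements of `E` diverges. -/
def Dvg (E : Set ℕ) : Prop := ¬ Summable (Set.indicator E (fun q : ℕ => (1 : ℝ) / q))

open Classical in
/-- The number of pairs `(k, q)`, `q ∈ E`, `1 ≤ k ≤ n`, `q ∣ k`. -/
noncomputable def pairs (E : Set ℕ) (n : ℕ) : ℕ :=
  ∑ q ∈ (Finset.range (n + 1)).filter (fun q => q ∈ E), n / q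

/-- The polynomial `1 + X + ... + X ^ (q - 1)`. -/
noncomputable def NN (q : ℕ) : ℤ[X] := ∑ i ∈ Finset.range q, X ^ i

/-- The abelianisation of the subgroup `K`, written additively. -/
abbrev AbK {G : Type*} [Group G] (K : Subgroup G) : Type _ := Additive (Abelianization K)

/-- The class of an element of `K` in the abelianisation of `K`. -/
def cl {G : Type*} [Group G] (K : Subgroup G) (x : K) : AbK K :=
  Additive.ofMul (Abelianization.of x)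

/-- The action of `g` by conjugation on the abelianisation of the normal subgroup `K`. -/
noncomputable def cact {G : Type*} [Group G] (K : Subgroup G) [K.Normal] (g : G) :
    Module.End ℤ (AbK K) :=
  (MonoidHom.toAdditive (Abelianization.map
    ((MulAut.conjNormal g : MulAut K) : K →* K))).toIntLinearMap

/-! ### Counting -/

/-- PRS: pairs `(k, q)`, `q ∣ k ≤ n`, are more than linearly many. -/
def Stmt_PRS : Prop := ∀ E : Set ℕ, (∀ q ∈ E, q.Prime) → Dvg E → Superlinear (pairs E)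

/-- CNT: counting orbits. -/
def Stmt_CNT : Prop := ∀ (G : Type) [Group G] (S : Set G), S.Finite →
  ∀ (E : Set ℕ) (L : ℕ) (g : ℕ → ℕ → G), (∀ q ∈ E, 1 ≤ q) →
  (∀ k q, 1 ≤ k → q ∈ E → q ∣ k → g k q ∈ ball S (L * k)) →
  (∀ k q k' q', 1 ≤ k → q ∈ E → q ∣ k → 1 ≤ k' → q' ∈ E → q' ∣ k' →
    ∀ α : MulAut G, α (g k q) = g k' q' → k = k' ∧ q = q') →
  ∀ n, pairs E n ≤ autGrowth S (L * n)

/-- TWI: the elements `(a t) ^ q t ^ (k - q)` are in different orbits. -/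
def Stmt_TWI : Prop := ∀ (G : Type) [Group G] (K : Subgroup G) [K.Characteristic] (t a : G)
  (ha : a ∈ K) (E : Set ℕ), (∀ q ∈ E, q.Prime) →
  (∀ (α : MulAut G) (k l : ℕ), 1 ≤ k → 1 ≤ l → (α t) ^ k * (t ^ l)⁻¹ ∈ K →
    k = l ∧ α t * t⁻¹ ∈ K) →
  (∀ q ∈ E, ∀ b : AbK K, cl K ⟨a, ha⟩ ≠ (∑ i ∈ Finset.range q, (cact K t) ^ i) b) →
  ∀ k q k' q', 1 ≤ k → q ∈ E → q ∣ k → 1 ≤ k' → q' ∈ E → q' ∣ k' →
    ∀ α : MulAut G, α ((a * t) ^ q * t ^ (k - q)) = (a * t) ^ q' * t ^ (k' - q') →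
      k = k' ∧ q = q'

/-! ### Group theory -/

/-- CONT: `k x = l y` modulo torsion, `x = β y`, `β` an automorphism of a finitely generated abelian
group, `y` of infinite order: then `k = l`. -/
def Stmt_CONT : Prop := ∀ (Λ : Type) [AddCommGroup Λ] [AddGroup.FG Λ] (β : Λ ≃+ Λ) (y : Λ),
  (∀ j : ℕ, 1 ≤ j → j • y ≠ 0) → ∀ k l : ℕ, 1 ≤ k → 1 ≤ l →
  (∃ j : ℕ, 1 ≤ j ∧ j • (k • β y - l • y) = 0) → k = l

/-- DIVT: choice of `t`. -/
def Stmt_DIVT : Prop := ∀ (G : Type) [Group G] [Group.FG G] (N : Subgroup G) [N.Characteristic]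
  [N.FiniteIndex] (m : ℕ) (t : G), 1 ≤ m → t ∈ N → (∀ j : ℕ, 1 ≤ j → t ^ j ∉ ⁅N, N⁆) →
  (∀ x ∈ N, (∃ j : ℕ, 1 ≤ j ∧ x ^ j ∈ ⁅N, N⁆) → x ^ m ∈ ⁅N, N⁆) →
  ∀ (α : MulAut G) (k l : ℕ), 1 ≤ k → 1 ≤ l → (α (t ^ m)) ^ k * ((t ^ m) ^ l)⁻¹ ∈ ⁅N, N⁆ →
    k = l ∧ α (t ^ m) * (t ^ m)⁻¹ ∈ ⁅N, N⁆

/-- TORE: the exponent `m`. -/
def Stmt_TORE : Prop := ∀ (G : Type) [Group G] [Group.FG G] (N : Subgroup G) [N.Normal]
  [N.FiniteIndex], ∃ m : ℕ, 1 ≤ m ∧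
  ∀ x ∈ N, (∃ j : ℕ, 1 ≤ j ∧ x ^ j ∈ ⁅N, N⁆) → x ^ m ∈ ⁅N, N⁆

/-- CORE: a finitely generated group has arbitrarily small characteristic subgroups of finite
index. -/
def Stmt_CORE : Prop := ∀ (G : Type) [Group G] [Group.FG G] (H : Subgroup G), H.FiniteIndex →
  ∃ N : Subgroup G, N ≤ H ∧ N.Characteristic ∧ N.FiniteIndex

/-- RED: reduction to a metabelian section. -/
def Stmt_RED : Prop := ∀ (G : Type) [Group G] [Group.FG G] (H : Subgroup G), H.FiniteIndex →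
  ∀ (Q : Type) [Group Q] [Group.IsSolvable Q] (f : H →* Q), Function.Surjective f →
  (¬ ∃ B : Subgroup Q, B.FiniteIndex ∧ ∀ x ∈ B, ∀ y ∈ B, x * y = y * x) →
  ∃ N : Subgroup G, N.Characteristic ∧ N.FiniteIndex ∧
    ∀ M : Subgroup G, M ≤ N → M.FiniteIndex → ¬ ⁅M, M⁆ ≤ ⁅⁅N, N⁆, ⁅N, N⁆⁆

/-- INFA: the two layers are infinite. -/
def Stmt_INFA : Prop := ∀ (G : Type) [Group G] [Group.FG G] (N : Subgroup G), N.Normal →
  N.FiniteIndex → (∀ M : Subgroup G, M ≤ N → M.FiniteIndex → ¬ ⁅M, M⁆ ≤ ⁅⁅N, N⁆, ⁅N, N⁆⁆) →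
  Infinite (Abelianization N) ∧ Infinite (AbK ⁅N, N⁆)

/-- MODF: `N' / N''` is finitely generated as a module. -/
def Stmt_MODF : Prop := ∀ (G : Type) [Group G] [Group.FG G] (N : Subgroup G) [N.Normal]
  [N.FiniteIndex], ∃ T : Finset (AbK ⁅N, N⁆), ∀ M : AddSubgroup (AbK ⁅N, N⁆),
  (∀ g ∈ N, ∀ x ∈ M, cact ⁅N, N⁆ g x ∈ M) → (∀ x ∈ T, x ∈ M) → M = ⊤

/-! ### Commutative algebra -/

/-- MAXP: a prime above the annihilator with infinite quotient. -/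
def Stmt_MAXP : Prop := ∀ (R : Type) [CommRing R] [IsNoetherianRing R] (A : Type)
  [AddCommGroup A] [Module R A] [Module.Finite R A] [Infinite A],
  ∃ P : Ideal R, P.IsPrime ∧ Module.annihilator R A ≤ P ∧ Infinite (R ⧸ P)

/-- NAK: an element which is not a unit modulo a prime above the annihilator is not surjective. -/
def Stmt_NAK : Prop := ∀ (R : Type) [CommRing R] (A : Type) [AddCommGroup A] [Module R A]
  [Module.Finite R A] (P : Ideal R), Module.annihilator R A ≤ P → ∀ x : R,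
  ¬ IsUnit (Ideal.Quotient.mk P x) → ∃ a : A, ∀ b : A, a ≠ x • b

/-- PIG: pigeonhole over the generators. -/
def Stmt_PIG : Prop := ∀ (R : Type) [CommRing R] (A : Type) [AddCommGroup A] [Module R A]
  [Module.Finite R A] (x : ℕ → R) (E : Set ℕ), Dvg E → (∀ q ∈ E, ∃ a : A, ∀ b : A, a ≠ x q • b) →
  ∃ (a : A) (E' : Set ℕ), E' ⊆ E ∧ Dvg E' ∧ ∀ q ∈ E', ∀ b : A, a ≠ x q • b

/-- TOR: an infinite domain generated by finitely many roots of unity: no prime is invertible. -/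
def Stmt_TOR : Prop := ∀ (D : Type) [CommRing D] [IsDomain D] [Infinite D] (T : Set D),
  T.Finite → (∀ x ∈ T, ∃ n : ℕ, 1 ≤ n ∧ x ^ n = 1) → Algebra.adjoin ℤ T = ⊤ →
  ∀ q : ℕ, q.Prime → ¬ IsUnit (q : D)

/-- CHE: consequence of Chevalley's theorem. -/
def Stmt_CHE : Prop := ∀ (D : Type) [CommRing D] [IsDomain D] [Algebra.FiniteType ℤ D] (v : D),
  ∃ g : ℤ[X], aeval v g ≠ 0 ∧ ∀ 𝔭 : Ideal ℤ[X], 𝔭.IsPrime → (∀ f : ℤ[X], aeval v f = 0 → f ∈ 𝔭) →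
    g ∉ 𝔭 → ∀ f ∈ 𝔭, ¬ IsUnit (aeval v f)

/-- ALPHA: characteristic `p`. -/
def Stmt_ALPHA : Prop := ∀ (D : Type) [CommRing D] [IsDomain D] [Algebra.FiniteType ℤ D]
  (p : ℕ) [Fact p.Prime] [CharP D p] (v : D), IsUnit v → (∀ n : ℕ, 1 ≤ n → v ^ n ≠ 1) →
  ∃ q₀ : ℕ, ∀ q : ℕ, q.Prime → q₀ ≤ q → ¬ IsUnit (aeval v (NN q))

/-- GAMMA: `v` transcendental. -/
def Stmt_GAMMA : Prop := ∀ (D : Type) [CommRing D] [IsDomain D] [Algebra.FiniteType ℤ D] (v : D),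
  (∀ f : ℤ[X], aeval v f = 0 → f = 0) →
  ∃ q₀ : ℕ, ∀ q : ℕ, q.Prime → q₀ ≤ q → ¬ IsUnit (aeval v (NN q))

/-- BETA: `v` algebraic over `ℤ`, characteristic zero. -/
def Stmt_BETA : Prop := ∀ (D : Type) [CommRing D] [IsDomain D] [Algebra.FiniteType ℤ D]
  [CharZero D] (v : D), IsUnit v → (∀ n : ℕ, 1 ≤ n → v ^ n ≠ 1) →
  (∃ f : ℤ[X], f ≠ 0 ∧ aeval v f = 0) →
  Dvg {q | q.Prime ∧ ¬ IsUnit (aeval v (NN q))}

/-- INF: the sum over the three cases. -/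
def Stmt_INF : Prop := ∀ (D : Type) [CommRing D] [IsDomain D] [Algebra.FiniteType ℤ D] (v : D),
  IsUnit v → (∀ n : ℕ, 1 ≤ n → v ^ n ≠ 1) → Dvg {q | q.Prime ∧ ¬ IsUnit (aeval v (NN q))}

/-- DOM: domains generated by units. -/
def Stmt_DOM : Prop := ∀ (D : Type) [CommRing D] [IsDomain D] [Algebra.FiniteType ℤ D]
  [Infinite D] (Γ : Type) [CommGroup Γ] [Group.FG Γ] [Infinite Γ] (c : Γ →* D),
  Algebra.adjoin ℤ (Set.range c) = ⊤ → ∀ m : ℕ, 1 ≤ m →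
  ∃ γ : Γ, (∀ j : ℕ, 1 ≤ j → γ ^ j ≠ 1) ∧
    Dvg {q | q.Prime ∧ ¬ IsUnit (aeval (c (γ ^ m)) (NN q))}

/-- ALG: the result of the commutative algebra. -/
def Stmt_ALG : Prop := ∀ (R : Type) [CommRing R] [Algebra.FiniteType ℤ R] (A : Type)
  [AddCommGroup A] [Module R A] [Module.Finite R A] [Infinite A] (Γ : Type) [CommGroup Γ]
  [Group.FG Γ] [Infinite Γ] (c : Γ →* R), Algebra.adjoin ℤ (Set.range c) = ⊤ →
  ∀ m : ℕ, 1 ≤ m → ∃ γ : Γ, (∀ j : ℕ, 1 ≤ j → γ ^ j ≠ 1) ∧ ∃ (a : A) (E : Set ℕ),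
    (∀ q ∈ E, q.Prime) ∧ Dvg E ∧ ∀ q ∈ E, ∀ b : A, a ≠ (aeval (c (γ ^ m)) (NN q)) • b

/-! ### Analysis -/

/-- LIO: Liouville bound. -/
def Stmt_LIO : Prop := ∀ (F : ℤ[X]) (z : ℂ), F ≠ 0 → aeval z F = 0 →
  (∀ w : ℂ, aeval w F = 0 → ∀ n : ℕ, 1 ≤ n → w ^ n ≠ 1) →
  ∃ B : ℝ, 0 < B ∧ ∀ n : ℕ, 1 ≤ n → Real.exp (-B * n) ≤ ‖z ^ n - 1‖

/-- SPA: the `n` with `z ^ n` extremely close to `1` are sparse. -/
def Stmt_SPA : Prop := ∀ (z : ℂ) (B : ℝ), ‖z‖ = 1 → 0 < B →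
  (∀ n : ℕ, 1 ≤ n → Real.exp (-B * n) ≤ ‖z ^ n - 1‖) → ∀ ε : ℝ, 0 < ε →
  ¬ Dvg {n : ℕ | ‖z ^ n - 1‖ < Real.exp (-ε * n)}

/-- MAH: the Mahler measure is larger than one (Kronecker). -/
def Stmt_MAH : Prop := ∀ F : ℤ[X], 1 ≤ F.natDegree → F.coeff 0 ≠ 0 →
  (∀ w : ℂ, aeval w F = 0 → ∀ n : ℕ, 1 ≤ n → w ^ n ≠ 1) →
  1 < |(F.leadingCoeff : ℝ)| * ((F.map (Int.castRingHom ℂ)).roots.map (fun w => max 1 ‖w‖)).prod

/-- RES: the resultant with `1 + X + ... + X ^ (n - 1)` in terms of the complex roots. -/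
def Stmt_RES : Prop := ∀ (F : ℤ[X]) (n : ℕ), F ≠ 0 → 1 ≤ n → IsCoprime (NN n) F →
  |(F.leadingCoeff : ℝ)| ^ n * ((F.map (Int.castRingHom ℂ)).roots.map (fun w => ‖w ^ n - 1‖)).prod
    = |((F.eval 1 : ℤ) : ℝ)|

/-- AN: the `n` for which `1 + ... + X ^ (n - 1)` and `F` generate the unit ideal are sparse. -/
def Stmt_AN : Prop := ∀ F : ℤ[X], 1 ≤ F.natDegree → F.coeff 0 ≠ 0 →
  (∀ w : ℂ, aeval w F = 0 → ∀ n : ℕ, 1 ≤ n → w ^ n ≠ 1) →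
  ¬ Dvg {n : ℕ | IsCoprime (NN n) F}

/-! ### The theorem -/

/-- MAIN -/
def Stmt_MAIN : Prop := ∀ (G : Type) [Group G] (S : Set G), S.Finite →
  Subgroup.closure S = ⊤ → ∀ H : Subgroup G, H.FiniteIndex → ∀ (Q : Type) [Group Q]
  [Group.IsSolvable Q] (f : H →* Q), Function.Surjective f →
  (¬ ∃ B : Subgroup Q, B.FiniteIndex ∧ ∀ x ∈ B, ∀ y ∈ B, x * y = y * x) →
  Superlinear (autGrowth S)

end Pool.Agent.Work.LAG
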