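import Pool.Agent.Work.MP_7f9bcc_LAG.Base

set_option autoImplicit false

/-!
Block LIO of the project LAG (MP_7f9bcc): Liouville bound for `z ^ n - 1` (helper93).
-/

namespace Pool.Agent.Work.LAG

open Polynomial

namespace LIO

theorem norm_multiset_prod (s : Multiset ℂ) (f : ℂ → ℂ) :
    ‖(s.map f).prod‖ = (s.map (fun w => ‖f w‖)).prod := by
  induction s using Multiset.induction_on with
  | empty => simp
  | cons a s ih => rw [Multiset.map_cons, Multiset.prod_cons, norm_mul, ih, Multiset.map_cons,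
      Multiset.prod_cons]

/-- The product over the roots is at least one. -/
theorem one_le_prod (F : ℤ[X]) (hF : F ≠ 0)
    (hr : ∀ w : ℂ, aeval w F = 0 → ∀ n : ℕ, 1 ≤ n → w ^ n ≠ 1) (n : ℕ) (hn : 1 ≤ n) :
    1 ≤ |(F.leadingCoeff : ℝ)| ^ n *
      ((F.map (Int.castRingHom ℂ)).roots.map (fun w => ‖w ^ n - 1‖)).prod := by
  have hinj : Function.Injective (Int.castRingHom ℂ) := (Int.castRingHom ℂ).injective_int
  set G : ℂ[X] := F.map (Int.castRingHom ℂ) with hG
  have hG0 : G ≠ 0 := (Polynomial.map_ne_zero_iff hinj).2 hF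
  have hdeg : G.natDegree = F.natDegree := natDegree_map_eq_of_injective hinj F
  have hlc : G.leadingCoeff = (F.leadingCoeff : ℂ) := by
    rw [hG, leadingCoeff_map_of_injective hinj]
    simp
  have hX : ((X ^ n - 1 : ℤ[X]).map (Int.castRingHom ℂ)) = X ^ n - 1 := by simp
  have h1 : resultant G (X ^ n - 1) G.natDegree n
      = G.leadingCoeff ^ n * (G.roots.map (X ^ n - 1 : ℂ[X]).eval).prod :=
    resultant_eq_prod_eval G (X ^ n - 1) n (by
      refine (natDegree_sub_le _ _).trans ?_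
      simp) (IsAlgClosed.splits G)
  have h2 : resultant G (X ^ n - 1) G.natDegree n
      = ((resultant F (X ^ n - 1) F.natDegree n : ℤ) : ℂ) := by
    rw [hdeg, ← hX, hG, resultant_map_map]
    simp
  have h3 : (G.roots.map (X ^ n - 1 : ℂ[X]).eval) = G.roots.map (fun w => w ^ n - 1) := by
    refine Multiset.map_congr rfl fun w _ => ?_
    simp
  rw [h3, h2] at h1
  have h4 : (resultant F (X ^ n - 1) F.natDegree n : ℤ) ≠ 0 := by
    intro h0
    rw [h0, Int.cast_zero] at h1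
    have h5 : G.leadingCoeff ^ n * (G.roots.map (fun w => w ^ n - 1)).prod ≠ 0 := by
      refine mul_ne_zero (pow_ne_zero _ (leadingCoeff_ne_zero.2 hG0)) ?_
      intro h6
      rw [Multiset.prod_eq_zero_iff] at h6
      obtain ⟨w, hw, hw2⟩ := Multiset.mem_map.1 h6
      have hw3 : aeval w F = 0 := by
        have := (mem_roots hG0).1 hw
        rw [IsRoot.def, hG, eval_map] at this
        rw [aeval_def]
        exact this
      exact hr w hw3 n hn (sub_eq_zero.1 hw2)
    exact h5 h1.symm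
  have h5 : ‖((resultant F (X ^ n - 1) F.natDegree n : ℤ) : ℂ)‖
      = |(F.leadingCoeff : ℝ)| ^ n * (G.roots.map (fun w => ‖w ^ n - 1‖)).prod := by
    rw [h1, norm_mul, norm_pow, norm_multiset_prod, hlc, Complex.norm_intCast]
  rw [← h5, Complex.norm_intCast]
  exact_mod_cast Int.one_le_abs h4

end LIO

open LIO in
theorem stmt_LIO : Stmt_LIO := by
  intro F z hF hz hr
  have hinj : Function.Injective (Int.castRingHom ℂ) := (Int.castRingHom ℂ).injective_int
  have hG0 : F.map (Int.castRingHom ℂ) ≠ 0 := (Polynomial.map_ne_zero_iff hinj).2 hF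
  have hzr : z ∈ (F.map (Int.castRingHom ℂ)).roots := by
    rw [mem_roots hG0, IsRoot.def, eval_map]
    rw [aeval_def] at hz
    exact hz
  set s : Multiset ℂ := (F.map (Int.castRingHom ℂ)).roots.erase z with hs
  have hcons : (F.map (Int.castRingHom ℂ)).roots = z ::ₘ s := (Multiset.cons_erase hzr).symm
  set C : ℝ := |(F.leadingCoeff : ℝ)| * (s.map (fun w => 2 * max 1 ‖w‖)).prod with hC
  have hlc : 0 < |(F.leadingCoeff : ℝ)| := by
    rw [abs_pos]
    exact_mod_cast leadingCoeff_ne_zero.2 hF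
  have hprod : 0 < (s.map (fun w : ℂ => 2 * max 1 ‖w‖)).prod := by
    refine Multiset.prod_pos ?_
    intro x hx
    obtain ⟨w, -, rfl⟩ := Multiset.mem_map.1 hx
    have : (1:ℝ) ≤ max 1 ‖w‖ := le_max_left _ _
    linarith
  have hCpos : 0 < C := mul_pos hlc hprod
  refine ⟨|Real.log C| + 1, by positivity, ?_⟩
  intro n hn
  have h1 := one_le_prod F hF hr n hn
  rw [hcons, Multiset.map_cons, Multiset.prod_cons] at h1
  have h2 : (s.map (fun w : ℂ => ‖w ^ n - 1‖)).prod
      ≤ (s.map (fun w : ℂ => 2 * max 1 ‖w‖)).prod ^ n := by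
    rw [← Multiset.prod_map_pow]
    refine Multiset.prod_map_le_prod_map₀ _ _ (fun w _ => norm_nonneg _) (fun w _ => ?_)
    have ha : (1:ℝ) ≤ max 1 ‖w‖ := le_max_left _ _
    have hb : ‖w‖ ≤ max 1 ‖w‖ := le_max_right _ _
    calc ‖w ^ n - 1‖ ≤ ‖w ^ n‖ + ‖(1:ℂ)‖ := norm_sub_le _ _
      _ = ‖w‖ ^ n + 1 := by rw [norm_pow, norm_one]
      _ ≤ (max 1 ‖w‖) ^ n + (max 1 ‖w‖) ^ n :=
          add_le_add (pow_le_pow_left₀ (norm_nonneg _) hb n) (one_le_pow₀ ha)
      _ = 2 * (max 1 ‖w‖) ^ n := by ring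
      _ ≤ 2 ^ n * (max 1 ‖w‖) ^ n := by
          refine mul_le_mul_of_nonneg_right ?_ (by positivity)
          calc (2:ℝ) = 2 ^ 1 := (pow_one _).symm
            _ ≤ 2 ^ n := pow_le_pow_right₀ (by norm_num) hn
      _ = (2 * max 1 ‖w‖) ^ n := by rw [mul_pow]
  have h3 : 1 ≤ C ^ n * ‖z ^ n - 1‖ := by
    calc (1:ℝ) ≤ |(F.leadingCoeff : ℝ)| ^ n *
        (‖z ^ n - 1‖ * (s.map (fun w : ℂ => ‖w ^ n - 1‖)).prod) := h1
      _ ≤ |(F.leadingCoeff : ℝ)| ^ n *
        (‖z ^ n - 1‖ * (s.map (fun w : ℂ => 2 * max 1 ‖w‖)).prod ^ n) := by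
          refine mul_le_mul_of_nonneg_left ?_ (by positivity)
          exact mul_le_mul_of_nonneg_left h2 (norm_nonneg _)
      _ = C ^ n * ‖z ^ n - 1‖ := by rw [hC, mul_pow]; ring
  have h4 : C ^ n ≤ Real.exp ((|Real.log C| + 1) * n) := by
    calc C ^ n = Real.exp (Real.log C * n) := by
          rw [mul_comm, Real.exp_nat_mul, Real.exp_log hCpos]
      _ ≤ Real.exp ((|Real.log C| + 1) * n) := by
          refine Real.exp_le_exp.2 (mul_le_mul_of_nonneg_right ?_ (by positivity))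
          have := le_abs_self (Real.log C)
          linarith
  have h5 : 1 ≤ Real.exp ((|Real.log C| + 1) * n) * ‖z ^ n - 1‖ :=
    h3.trans (mul_le_mul_of_nonneg_right h4 (norm_nonneg _))
  have h6 : Real.exp (-(|Real.log C| + 1) * n) = (Real.exp ((|Real.log C| + 1) * n))⁻¹ := by
    rw [← Real.exp_neg]
    congr 1
    ring
  rw [h6]
  have hpos := Real.exp_pos ((|Real.log C| + 1) * n)
  rw [inv_le_iff_one_le_mul₀ hpos, mul_comm]
  exact h5

end Pool.Agent.Work.LAG
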