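import Pool.Agent.Work.MP_7f9bcc_LAG.Base

set_option autoImplicit false

/-!
Block MAH: the Mahler measure is larger than one (Kronecker).
-/

namespace Pool.Agent.Work.LAG

open Polynomial

theorem stmt_MAH : Stmt_MAH := by
  intro F hF h0 hroot
  have hF0 : F ≠ 0 := by
    rintro rfl
    simp at h0
  have hinj : Function.Injective (Int.castRingHom ℂ) := (Int.castRingHom ℂ).injective_int
  have h1 : (F.map (Int.castRingHom ℂ)).mahlerMeasure =
      |(F.leadingCoeff : ℝ)| *
        ((F.map (Int.castRingHom ℂ)).roots.map (fun w => max 1 ‖w‖)).prod := by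
    rw [mahlerMeasure_eq_leadingCoeff_mul_prod_roots, leadingCoeff_map_of_injective hinj]
    simp [Complex.norm_intCast]
  rw [← h1]
  have h2 : 1 ≤ (F.map (Int.castRingHom ℂ)).mahlerMeasure := one_le_mahlerMeasure_of_ne_zero hF0
  refine lt_of_le_of_ne h2 ?_
  intro h3
  have hdeg : (F.map (Int.castRingHom ℂ)).degree ≠ 0 := by
    rw [degree_map_eq_of_injective hinj]
    intro h4
    rw [degree_eq_natDegree hF0] at h4
    have h5 : F.natDegree = 0 := by exact_mod_cast h4
    omega
  obtain ⟨z, hz⟩ := (IsAlgClosed.splits (F.map (Int.castRingHom ℂ))).exists_eval_eq_zero hdeg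
  have hz' : aeval z F = 0 := by
    rw [eval_map] at hz
    exact hz
  have hz0 : z ≠ 0 := by
    rintro rfl
    apply h0
    rw [← coeff_zero_eq_aeval_zero'] at hz'
    simpa using hz'
  have hmem : z ∈ F.aroots ℂ := by
    rw [mem_aroots]
    exact ⟨hF0, hz'⟩
  obtain ⟨n, hn, hzn⟩ := pow_eq_one_of_mahlerMeasure_eq_one h3.symm hz0 hmem
  exact hroot z hz' n hn hzn

end Pool.Agent.Work.LAG
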