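import Pool.Agent.Work.MP_7f9bcc_LAG.Base

set_option autoImplicit false

/-!
Block MAXP of the project LAG (MP_7f9bcc): a prime above the annihilator with infinite quotient
(helper93).
-/

namespace Pool.Agent.Work.LAG

namespace MAXP

theorem infinite_quot_annihilator (R : Type) [CommRing R] (A : Type)
    [AddCommGroup A] [Module R A] [Module.Finite R A] [Infinite A] :
    Infinite (R ⧸ Module.annihilator R A) := by
  rw [← not_finite_iff_infinite]
  intro hfin
  let _ : Module (R ⧸ Module.annihilator R A) A := Module.quotientAnnihilator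
  have hst : IsScalarTower R (R ⧸ Module.annihilator R A) A := by
    refine ⟨fun r x a => ?_⟩
    obtain ⟨y, rfl⟩ := Ideal.Quotient.mk_surjective x
    have h1 : r • (Ideal.Quotient.mk (Module.annihilator R A) y)
        = Ideal.Quotient.mk (Module.annihilator R A) (r * y) := rfl
    rw [h1]
    show (r * y) • a = r • (y • a)
    rw [mul_smul]
  have hf : Module.Finite (R ⧸ Module.annihilator R A) A :=
    Module.Finite.of_restrictScalars_finite R _ A
  have : Finite A := Module.finite_of_finite (R ⧸ Module.annihilator R A)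
  exact not_finite A

theorem finite_of_mul (R : Type) [CommRing R] (P : Ideal R) (a b : R) (hab : a * b ∈ P)
    (h1 : Finite (R ⧸ (P ⊔ Ideal.span {a}))) (h2 : ∀ I : Ideal R, P ≤ I → b ∈ I → Finite (R ⧸ I)) :
    Finite (R ⧸ P) := by
  set I : Ideal R :=
    { carrier := {x | x * a ∈ P}
      add_mem' := fun {x y} hx hy => by
        show (x + y) * a ∈ P
        rw [add_mul]
        exact P.add_mem hx hy
      zero_mem' := by
        show 0 * a ∈ P
        rw [zero_mul]
        exact P.zero_mem
      smul_mem' := fun c x hx => by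
        show (c • x) * a ∈ P
        rw [smul_eq_mul, mul_assoc]
        exact P.mul_mem_left c hx } with hI
  have hmem : ∀ x, x ∈ I ↔ x * a ∈ P := fun x => Iff.rfl
  have hf : Finite (R ⧸ I) := by
    refine h2 I (fun x hx => ?_) ?_
    · rw [hmem]
      exact P.mul_mem_right a hx
    · rw [hmem, mul_comm]
      exact hab
  let F : (R ⧸ (P ⊔ Ideal.span {a})) × (R ⧸ I) → R ⧸ P := fun p =>
    Ideal.Quotient.mk P (Quotient.out p.1 + Quotient.out p.2 * a)
  refine Finite.of_surjective F ?_
  intro x
  obtain ⟨x, rfl⟩ := Ideal.Quotient.mk_surjective x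
  have hout : ∀ (J : Ideal R) (y : R), y - Quotient.out (Ideal.Quotient.mk J y) ∈ J := by
    intro J y
    rw [← Ideal.Quotient.eq]
    exact (Quotient.out_eq (Ideal.Quotient.mk J y)).symm
  have hy := hout (P ⊔ Ideal.span {a}) x
  obtain ⟨p, hp, q, hq, hpq⟩ := Submodule.mem_sup.1 hy
  obtain ⟨w, rfl⟩ := Ideal.mem_span_singleton.1 hq
  refine ⟨(Ideal.Quotient.mk _ x, Ideal.Quotient.mk _ w), ?_⟩
  show Ideal.Quotient.mk P (Quotient.out (Ideal.Quotient.mk (P ⊔ Ideal.span {a}) x)
    + Quotient.out (Ideal.Quotient.mk I w) * a) = Ideal.Quotient.mk P x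
  symm
  rw [Ideal.Quotient.eq]
  have hw := (hmem _).1 (hout I w)
  have : x - (Quotient.out (Ideal.Quotient.mk (P ⊔ Ideal.span {a}) x)
      + Quotient.out (Ideal.Quotient.mk I w) * a)
      = p + (w - Quotient.out (Ideal.Quotient.mk I w)) * a := by
    linear_combination -hpq
  rw [this]
  exact P.add_mem hp hw

end MAXP

open MAXP in
theorem stmt_MAXP : Stmt_MAXP := by
  intro R _ _ A _ _ _ _
  have h0 := infinite_quot_annihilator R A
  obtain ⟨P, ⟨hP1, hP2⟩, hmax⟩ := set_has_maximal_iff_noetherian.2 ‹IsNoetherianRing R›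
    {I : Ideal R | Module.annihilator R A ≤ I ∧ Infinite (R ⧸ I)} ⟨_, le_refl _, h0⟩
  refine ⟨P, ?_, hP1, hP2⟩
  have hbig : ∀ I : Ideal R, P < I → Finite (R ⧸ I) := by
    intro I hI
    by_contra h
    rw [not_finite_iff_infinite] at h
    exact hmax I ⟨hP1.trans hI.le, h⟩ hI
  rw [Ideal.isPrime_iff]
  constructor
  · rintro rfl
    have : Subsingleton (R ⧸ (⊤ : Ideal R)) := Ideal.Quotient.subsingleton_iff.2 rfl
    exact not_finite (R ⧸ (⊤ : Ideal R))
  · intro a b hab
    by_contra hcon
    rw [not_or] at hcon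
    obtain ⟨ha, hb⟩ := hcon
    have h1 : Finite (R ⧸ (P ⊔ Ideal.span {a})) := by
      refine hbig _ (lt_of_le_of_ne le_sup_left ?_)
      intro h
      apply ha
      rw [h]
      exact Ideal.mem_sup_right (Ideal.mem_span_singleton_self a)
    have h2 : ∀ I : Ideal R, P ≤ I → b ∈ I → Finite (R ⧸ I) := by
      intro I hI hbI
      refine hbig _ (lt_of_le_of_ne hI ?_)
      rintro rfl
      exact hb hbI
    have := finite_of_mul R P a b hab h1 h2
    exact not_finite (R ⧸ P)

end Pool.Agent.Work.LAG
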