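import Pool.Agent.Work.MP_7f9bcc_LAG.Base

set_option autoImplicit false

/-!
Block MODF of the project LAG (MP_7f9bcc): `N' / N''` is finitely generated as a module.
-/

namespace Pool.Agent.Work.LAG

open scoped commutatorElement

namespace MODF

/-- A subgroup normalised by `N` which contains the commutators of generators. -/
theorem comm_le {G : Type*} [Group G] (N K : Subgroup G) (S : Set G)
    (hS : Subgroup.closure S = N) (hK : ∀ g ∈ N, ∀ k ∈ K, g * k * g⁻¹ ∈ K)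
    (h : ∀ x ∈ S, ∀ y ∈ S, ⁅x, y⁆ ∈ K) : ⁅N, N⁆ ≤ K := by
  have hSN : ∀ x ∈ Subgroup.closure S, x ∈ N := fun x hx => hS ▸ hx
  have h1 : ∀ x ∈ N, ∀ y ∈ S, ⁅x, y⁆ ∈ K := by
    intro x hx y hy
    rw [← hS] at hx
    induction hx using Subgroup.closure_induction with
    | mem x hx => exact h x hx y hy
    | one => rw [commutatorElement_one_left]; exact K.one_mem
    | mul x x' hx hx' ih ih' =>
      have e : ⁅x * x', y⁆ = (x * ⁅x', y⁆ * x⁻¹) * ⁅x, y⁆ := by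
        simp only [commutatorElement_def]; group
      rw [e]
      exact K.mul_mem (hK x (hSN x hx) _ ih') ih
    | inv x hx ih =>
      have e : ⁅x⁻¹, y⁆ = x⁻¹ * ⁅x, y⁆⁻¹ * (x⁻¹)⁻¹ := by
        simp only [commutatorElement_def]; group
      rw [e]
      exact hK _ (N.inv_mem (hSN x hx)) _ (K.inv_mem ih)
  rw [Subgroup.commutator_le]
  intro x hx y hy
  rw [← hS] at hy
  induction hy using Subgroup.closure_induction with
  | mem y hy => exact h1 x hx y hy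
  | one => rw [commutatorElement_one_right]; exact K.one_mem
  | mul y y' hy hy' ih ih' =>
    have e : ⁅x, y * y'⁆ = ⁅x, y⁆ * (y * ⁅x, y'⁆ * y⁻¹) := by
      simp only [commutatorElement_def]; group
    rw [e]
    exact K.mul_mem ih (hK y (hSN y hy) _ ih')
  | inv y hy ih =>
    have e : ⁅x, y⁻¹⁆ = y⁻¹ * ⁅x, y⁆⁻¹ * (y⁻¹)⁻¹ := by
      simp only [commutatorElement_def]; group
    rw [e]
    exact hK _ (N.inv_mem (hSN y hy)) _ (K.inv_mem ih)

end MODF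

/-- **MODF** -/
theorem stmt_MODF : Stmt_MODF := by
  classical
  intro G _ _ N _ _
  obtain ⟨S, hS⟩ := (Group.fg_iff_subgroup_fg N).1 (Subgroup.fg_of_index_ne_zero N)
  have hSN : ∀ x ∈ S, x ∈ N := fun x hx => by
    rw [← hS]
    exact Subgroup.subset_closure hx
  refine ⟨(S.attach ×ˢ S.attach).image fun z => cl ⁅N, N⁆
    ⟨⁅(z.1 : G), (z.2 : G)⁆, Subgroup.commutator_mem_commutator (hSN _ z.1.2) (hSN _ z.2.2)⟩,
    fun M hM hT => ?_⟩
  -- the subgroup of the elements whose class is in `M`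
  let K : Subgroup G :=
    { carrier := {k | ∃ h : k ∈ ⁅N, N⁆, cl ⁅N, N⁆ ⟨k, h⟩ ∈ M}
      one_mem' := ⟨Subgroup.one_mem _, by
        have h1 : cl ⁅N, N⁆ ⟨1, Subgroup.one_mem _⟩ = 0 := cl_one _
        rw [h1]
        exact M.zero_mem⟩
      mul_mem' := by
        rintro a b ⟨ha, ha'⟩ ⟨hb, hb'⟩
        refine ⟨Subgroup.mul_mem _ ha hb, ?_⟩
        have h1 : cl ⁅N, N⁆ ⟨a * b, Subgroup.mul_mem _ ha hb⟩ =
            cl ⁅N, N⁆ ⟨a, ha⟩ + cl ⁅N, N⁆ ⟨b, hb⟩ := cl_mul _ ⟨a, ha⟩ ⟨b, hb⟩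
        rw [h1]
        exact M.add_mem ha' hb'
      inv_mem' := by
        rintro a ⟨ha, ha'⟩
        refine ⟨Subgroup.inv_mem _ ha, ?_⟩
        have h1 : cl ⁅N, N⁆ ⟨a⁻¹, Subgroup.inv_mem _ ha⟩ = - cl ⁅N, N⁆ ⟨a, ha⟩ :=
          cl_inv _ ⟨a, ha⟩
        rw [h1]
        exact M.neg_mem ha' }
  have hK : ∀ g ∈ N, ∀ k ∈ K, g * k * g⁻¹ ∈ K := by
    rintro g hg k ⟨hk, hk'⟩
    have h1 := hM g hg _ hk'
    rw [cact_cl] at h1
    refine ⟨(inferInstance : (⁅N, N⁆ : Subgroup G).Normal).conj_mem k hk g, ?_⟩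
    have h2 : (⟨g * k * g⁻¹, (inferInstance : (⁅N, N⁆ : Subgroup G).Normal).conj_mem k hk g⟩ :
        (⁅N, N⁆ : Subgroup G)) = MulAut.conjNormal g ⟨k, hk⟩ := by
      ext
      simp
    rw [h2]
    exact h1
  have hle : ⁅N, N⁆ ≤ K := by
    refine MODF.comm_le N K (S : Set G) hS hK fun x hx y hy => ?_
    refine ⟨Subgroup.commutator_mem_commutator (hSN x hx) (hSN y hy), hT _ ?_⟩
    rw [Finset.mem_image]
    exact ⟨(⟨x, hx⟩, ⟨y, hy⟩), Finset.mem_product.2 ⟨Finset.mem_attach _ _,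
      Finset.mem_attach _ _⟩, rfl⟩
  rw [eq_top_iff]
  intro x _
  obtain ⟨⟨k, hk⟩, rfl⟩ := cl_surjective ⁅N, N⁆ x
  obtain ⟨_, h⟩ := hle hk
  exact h

end Pool.Agent.Work.LAG
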