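import Pool.Agent.Work.MP_7f9bcc_LAG.Base

set_option autoImplicit false

/-!
Block NAK of the project LAG (MP_7f9bcc): Nakayama.
-/

namespace Pool.Agent.Work.LAG

theorem stmt_NAK : Stmt_NAK := by
  intro R _ A _ _ _ P hP x hx
  by_contra hcon
  push Not at hcon
  obtain ⟨M, hM, hxM⟩ := exists_max_ideal_of_mem_nonunits (mem_nonunits_iff.mpr hx)
  have hMP : P ≤ M.comap (Ideal.Quotient.mk P) := by
    intro r hr
    rw [Ideal.mem_comap, Ideal.Quotient.eq_zero_iff_mem.mpr hr]
    exact M.zero_mem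
  have hle : (⊤ : Submodule R A) ≤ Ideal.span {x} • (⊤ : Submodule R A) := by
    intro a _
    obtain ⟨b, hb⟩ := hcon a
    rw [hb]
    exact Submodule.smul_mem_smul (Ideal.mem_span_singleton_self x) trivial
  obtain ⟨r, hr1, hr2⟩ := Submodule.exists_sub_one_mem_and_smul_eq_zero_of_fg_of_le_smul
    (Ideal.span {x}) (⊤ : Submodule R A) Module.Finite.fg_top hle
  have hrP : r ∈ P := by
    apply hP
    rw [Module.mem_annihilator]
    intro a
    exact hr2 a trivial
  have h1 : Ideal.Quotient.mk P (r - 1) ∈ M := by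
    rw [Ideal.mem_span_singleton'] at hr1
    obtain ⟨a, ha⟩ := hr1
    rw [← ha, map_mul]
    exact M.mul_mem_left _ hxM
  have h2 : Ideal.Quotient.mk P r ∈ M := hMP hrP
  apply hM.ne_top
  rw [Ideal.eq_top_iff_one]
  have := M.sub_mem h2 h1
  rw [← map_sub] at this
  simpa using this

end Pool.Agent.Work.LAG
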