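import Pool.Agent.Work.MP_7f9bcc_LAG.Base

/-!
MP_7f9bcc, block PIG: pigeonhole over the generators (helper81).
-/

set_option autoImplicit false

namespace Pool.Agent.Work.LAG

theorem stmt_PIG : Stmt_PIG := by
  classical
  intro R _ A _ _ _ x E hE hno
  obtain ⟨T, hT⟩ := (Module.Finite.fg_top : (⊤ : Submodule R A).FG)
  by_contra hcon
  push Not at hcon
  have h1 : ∀ a ∈ T, ¬ Dvg {q | q ∈ E ∧ ∀ b : A, a ≠ x q • b} := by
    intro a _ hD
    obtain ⟨q, hq, b, hb⟩ := hcon a {q | q ∈ E ∧ ∀ b : A, a ≠ x q • b} (fun q hq => hq.1) hD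
    exact hq.2 b hb
  have h2 := not_dvg_biUnion T (fun a => {q | q ∈ E ∧ ∀ b : A, a ≠ x q • b}) h1
  apply h2
  refine hE.mono ?_
  intro q hq
  by_contra hnot
  simp only [Set.mem_iUnion, Set.mem_setOf_eq, not_exists, not_and, not_forall, not_not] at hnot
  obtain ⟨a, ha⟩ := hno q hq
  have h3 : (⊤ : Submodule R A) ≤ LinearMap.range (LinearMap.lsmul R A (x q)) := by
    rw [← hT, Submodule.span_le]
    intro t ht
    obtain ⟨b, hb⟩ := hnot t ht hq
    exact ⟨b, by rw [LinearMap.lsmul_apply]; exact hb.symm⟩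
  obtain ⟨b, hb⟩ := h3 (Submodule.mem_top : a ∈ ⊤)
  exact ha b (by rw [← hb, LinearMap.lsmul_apply])

end Pool.Agent.Work.LAG
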