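import Pool.Agent.Work.MP_7f9bcc_LAG.Interface

set_option autoImplicit false

/-!
Block PRS (helper96): pairs `(k, q)`, `q ∣ k ≤ n`, are more than linearly many.
-/

open Finset

namespace Pool.Agent.Work.LAG

theorem stmt_PRS : Stmt_PRS := by
  classical
  intro E _ hD C
  obtain ⟨f, hf⟩ : ∃ f : ℕ → ℝ, f = Set.indicator E (fun q : ℕ => (1 : ℝ) / q) := ⟨_, rfl⟩
  have hD' : ¬ Summable f := by rw [hf]; exact hD
  have hf0 : ∀ q, 0 ≤ f q := by
    intro q
    rw [hf]
    exact Set.indicator_nonneg (fun q _ => by positivity) q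
  have htend := (not_summable_iff_tendsto_nat_atTop_of_nonneg hf0).mp hD'
  obtain ⟨n₀, hn₀⟩ := Filter.eventually_atTop.mp (htend.eventually_ge_atTop ((C : ℝ) + 2))
  refine ⟨n₀ + 1, fun n hn => ?_⟩
  have h1 : (C : ℝ) + 2 ≤ ∑ q ∈ range (n + 1), f q := hn₀ (n + 1) (by omega)
  have h2 : ∑ q ∈ range (n + 1), f q = ∑ q ∈ (range (n + 1)).filter (fun q => q ∈ E), (1 : ℝ) / q := by
    rw [Finset.sum_filter]
    apply Finset.sum_congr rfl
    intro q _
    rw [hf]
    simp only [Set.indicator_apply]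
  have h3 : ∀ q ∈ (range (n + 1)).filter (fun q => q ∈ E), (n : ℝ) * (1 / q) - 1 ≤ ((n / q : ℕ) : ℝ) := by
    intro q _
    rcases Nat.eq_zero_or_pos q with rfl | hq
    · simp
    have hq' : (0 : ℝ) < q := by exact_mod_cast hq
    have h4 : n < q * (n / q + 1) := by
      have := Nat.lt_mul_div_succ n hq
      exact this
    have h5 : (n : ℝ) < q * (((n / q : ℕ) : ℝ) + 1) := by exact_mod_cast h4
    have h6 : (n : ℝ) * (1 / q) = n / q := by ring
    rw [h6, sub_le_iff_le_add, div_le_iff₀ hq']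
    linarith
  have h4 : (n : ℝ) * ((C : ℝ) + 2) - (n + 1) ≤ (pairs E n : ℝ) := by
    have hcard : (((range (n + 1)).filter (fun q => q ∈ E)).card : ℝ) ≤ n + 1 := by
      have := Finset.card_filter_le (range (n + 1)) (fun q => q ∈ E)
      rw [Finset.card_range] at this
      exact_mod_cast this
    have h5 : ∑ q ∈ (range (n + 1)).filter (fun q => q ∈ E), ((n : ℝ) * (1 / q) - 1) ≤
        (pairs E n : ℝ) := by
      rw [pairs, Nat.cast_sum]
      exact Finset.sum_le_sum h3
    rw [Finset.sum_sub_distrib, ← Finset.mul_sum, ← h2, Finset.sum_const, nsmul_eq_mul, mul_one] at h5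
    have h6 := mul_le_mul_of_nonneg_left h1 (Nat.cast_nonneg (α := ℝ) n)
    linarith
  have h5 : ((C * n : ℕ) : ℝ) ≤ (pairs E n : ℝ) := by
    push_cast
    have : (1 : ℝ) ≤ n := by
      have : 1 ≤ n := by omega
      exact_mod_cast this
    nlinarith
  exact_mod_cast h5

end Pool.Agent.Work.LAG
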