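import Pool.Agent.Work.MP_7f9bcc_LAG.Base

/-!
RED: reduction to a metabelian section.
-/

set_option autoImplicit false

open scoped commutatorElement

namespace Pool.Agent.Work.LAG

namespace RED

/-- derived series of a subgroup, as subgroups of the whole group -/
def D {G : Type*} [Group G] (N : Subgroup G) : ℕ → Subgroup G
  | 0 => N
  | (i + 1) => ⁅D N i, D N i⁆

/-- the derived series of the quotient, pulled back -/
theorem D_le {G Q : Type*} [Group G] [Group Q] (H : Subgroup G) (f : H →* Q) (N : Subgroup G)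
    (hN : N ≤ H) (i : ℕ) : D N i ≤ ((derivedSeries Q i).comap f).map H.subtype := by
  induction i with
  | zero =>
    intro x hx
    exact ⟨⟨x, hN hx⟩, by simp, rfl⟩
  | succ i ih =>
    have h1 : D N (i + 1) ≤ ⁅((derivedSeries Q i).comap f).map H.subtype,
        ((derivedSeries Q i).comap f).map H.subtype⁆ := Subgroup.commutator_mono ih ih
    rw [← Subgroup.map_commutator] at h1
    refine h1.trans (Subgroup.map_mono ?_)
    rw [← Subgroup.map_le_iff_le_comap, Subgroup.map_commutator, derivedSeries_succ]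
    exact Subgroup.commutator_mono (Subgroup.map_comap_le _ _) (Subgroup.map_comap_le _ _)

theorem chain (hCORE : Stmt_CORE) (G : Type) [Group G] [Group.FG G]
    (h : ∀ N : Subgroup G, N.Characteristic → N.FiniteIndex →
      ∃ M : Subgroup G, M ≤ N ∧ M.FiniteIndex ∧ ⁅M, M⁆ ≤ ⁅⁅N, N⁆, ⁅N, N⁆⁆) (i : ℕ) :
    ∀ N : Subgroup G, N.Characteristic → N.FiniteIndex →
      ∃ M : Subgroup G, M ≤ N ∧ M.Characteristic ∧ M.FiniteIndex ∧ ⁅M, M⁆ ≤ D N (i + 1) := by
  induction i with
  | zero => exact fun N h1 h2 => ⟨N, le_refl N, h1, h2, le_refl _⟩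
  | succ i ih =>
    intro N h1 h2
    obtain ⟨M1, hM1, c1, f1, k1⟩ := ih N h1 h2
    obtain ⟨M2, hM2, f2, k2⟩ := h M1 c1 f1
    obtain ⟨M, hM, c3, f3⟩ := hCORE G M2 f2
    refine ⟨M, hM.trans (hM2.trans hM1), c3, f3, ?_⟩
    exact (Subgroup.commutator_mono hM hM).trans (k2.trans (Subgroup.commutator_mono k1 k1))

end RED

theorem stmt_RED : Stmt_CORE → Stmt_RED := by
  intro hCORE G _ _ H hH Q _ hQ f hf hB
  by_contra hcon
  have h : ∀ N : Subgroup G, N.Characteristic → N.FiniteIndex →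
      ∃ M : Subgroup G, M ≤ N ∧ M.FiniteIndex ∧ ⁅M, M⁆ ≤ ⁅⁅N, N⁆, ⁅N, N⁆⁆ := by
    intro N h1 h2
    by_contra h3
    refine hcon ⟨N, h1, h2, fun M hM hMf hMc => h3 ⟨M, hM, hMf, hMc⟩⟩
  obtain ⟨N, hNH, hNc, hNf⟩ := hCORE G H hH
  obtain ⟨n, hn⟩ := hQ.solvable
  obtain ⟨M, hMN, hMc, hMf, hMD⟩ := RED.chain hCORE G h n N hNc hNf
  have hE : ⁅M, M⁆ ≤ (f.ker).map H.subtype := by
    refine hMD.trans ((RED.D_le H f N hNH (n + 1)).trans (Subgroup.map_mono ?_))
    have : derivedSeries Q (n + 1) = ⊥ := by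
      rw [derivedSeries_succ, hn, Subgroup.commutator_bot_left]
    rw [this, MonoidHom.comap_bot]
  refine hB ⟨(M.subgroupOf H).map f, ?_, ?_⟩
  · constructor
    intro h0
    have h1 := Subgroup.index_map_dvd (H := M.subgroupOf H) hf
    rw [h0, zero_dvd_iff] at h1
    have h2 : (M.subgroupOf H).FiniteIndex := inferInstance
    exact h2.index_ne_zero h1
  · rintro x ⟨a, ha, rfl⟩ y ⟨b, hb, rfl⟩
    have h1 : ⁅(a : G), (b : G)⁆ ∈ ⁅M, M⁆ := Subgroup.commutator_mem_commutator ha hb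
    obtain ⟨c, hc, hc2⟩ := hE h1
    have h3 : c = ⁅a, b⁆ := Subtype.ext (by
      rw [← Subgroup.coe_subtype, hc2]
      simp [commutatorElement_def])
    have h4 : f ⁅a, b⁆ = 1 := by rw [← h3]; exact hc
    rw [map_commutatorElement, commutatorElement_eq_one_iff_mul_comm] at h4
    exact h4

end Pool.Agent.Work.LAG
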