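import Pool.Agent.Work.MP_7f9bcc_LAG.Base

set_option autoImplicit false

/-!
Block RES: the resultant of an integer polynomial with `1 + X + ... + X ^ (n - 1)`.
-/

namespace Pool.Agent.Work.LAG

open Polynomial

theorem stmt_RES : Stmt_RES := by
  intro F n hF hn hco
  obtain ⟨hdeg, hmon⟩ := NN_natDegree n hn
  have h1 : IsUnit (resultant (NN n) F) := (isUnit_resultant_iff_isCoprime hmon).2 hco
  have h2 : |resultant (NN n) F| = 1 := Int.isUnit_iff_abs_eq.1 h1
  have h3 := resultant_mul_left (NN n) (X - C 1) F F.natDegree le_rfl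
  have hX : NN n * (X - C 1) = X ^ n - 1 := by
    rw [C_1]; exact NN_mul n
  rw [hX, hdeg, natDegree_X_sub_C, Nat.sub_add_cancel hn,
    resultant_X_sub_C_left F F.natDegree 1 le_rfl, ← hdeg] at h3
  have h4 : |resultant F (X ^ n - 1) F.natDegree n| = |F.eval 1| := by
    rw [resultant_comm, abs_mul, abs_pow, abs_neg, abs_one, one_pow, one_mul, h3, abs_mul, h2,
      one_mul]
  have hinj : Function.Injective (Int.castRingHom ℂ) := (Int.castRingHom ℂ).injective_int
  have h5 : ((resultant F (X ^ n - 1) F.natDegree n : ℤ) : ℂ) =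
      ((F.leadingCoeff : ℂ)) ^ n *
        ((F.map (Int.castRingHom ℂ)).roots.map (fun w => w ^ n - 1)).prod := by
    have h6 := resultant_eq_prod_eval (F.map (Int.castRingHom ℂ)) (X ^ n - 1) n
      ((natDegree_sub_le _ _).trans (by simp)) (IsAlgClosed.splits _)
    have h7 : (X ^ n - 1 : ℂ[X]) = (X ^ n - 1 : ℤ[X]).map (Int.castRingHom ℂ) := by simp
    rw [natDegree_map_eq_of_injective hinj, leadingCoeff_map_of_injective hinj] at h6
    have h8 : ((F.map (Int.castRingHom ℂ)).roots.map (X ^ n - 1 : ℂ[X]).eval) =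
        ((F.map (Int.castRingHom ℂ)).roots.map (fun w => w ^ n - 1)) := by
      apply Multiset.map_congr rfl
      intro w _
      simp
    rw [h8, h7, resultant_map_map] at h6
    simpa using h6
  have h9 : ‖((resultant F (X ^ n - 1) F.natDegree n : ℤ) : ℂ)‖ = |((F.eval 1 : ℤ) : ℝ)| := by
    rw [Complex.norm_intCast]
    exact_mod_cast h4
  rw [← h9, h5, norm_mul, norm_pow, Complex.norm_intCast]
  congr 1
  have h10 := map_multiset_prod (normHom : ℂ →*₀ ℝ)
    ((F.map (Int.castRingHom ℂ)).roots.map (fun w => w ^ n - 1))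
  rw [Multiset.map_map] at h10
  exact h10.symm

end Pool.Agent.Work.LAG
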