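import Pool.Agent.Work.MP_7f9bcc_LAG.Base

set_option autoImplicit false

/-!
Block SPA of the project LAG (MP_7f9bcc), by helper44: the exponents `n` for which `z ^ n` is
extremely close to `1` grow geometrically, so the sum of their reciprocals converges.
-/

namespace Pool.Agent.Work.LAG.SPA

/-- Two members of the set are far apart. -/
theorem gap {z : ℂ} {B ε : ℝ} (hz : ‖z‖ = 1) (hB : 0 < B) (hε : 0 < ε)
    (hlow : ∀ n : ℕ, 1 ≤ n → Real.exp (-B * n) ≤ ‖z ^ n - 1‖) {n m : ℕ} (hnm : n < m)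
    (hn : ‖z ^ n - 1‖ < Real.exp (-ε * n)) (hm : ‖z ^ m - 1‖ < Real.exp (-ε * m))
    (hbig : 2 * Real.log 2 / ε ≤ n) : (1 + ε / (2 * B)) * n ≤ m := by
  have hk1 : 1 ≤ m - n := by omega
  have h1 := hlow (m - n) hk1
  have hcast : ((m - n : ℕ) : ℝ) = (m : ℝ) - n := Nat.cast_sub hnm.le
  have h2 : ‖z ^ (m - n) - 1‖ = ‖z ^ m - z ^ n‖ := by
    have e1 : z ^ m - z ^ n = z ^ n * (z ^ (m - n) - 1) := by
      rw [mul_sub, mul_one, ← pow_add, Nat.add_sub_cancel' hnm.le]
    rw [e1, norm_mul, norm_pow, hz, one_pow, one_mul]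
  have h3 : ‖z ^ m - z ^ n‖ ≤ ‖z ^ m - 1‖ + ‖z ^ n - 1‖ := by
    have e1 : z ^ m - z ^ n = (z ^ m - 1) - (z ^ n - 1) := by ring
    rw [e1]
    exact norm_sub_le _ _
  have hmn : (n : ℝ) ≤ m := by exact_mod_cast hnm.le
  have h4 : Real.exp (-ε * m) ≤ Real.exp (-ε * n) := by
    apply Real.exp_le_exp.2
    nlinarith
  have h5 : Real.exp (-B * ((m : ℝ) - n)) < Real.exp (Real.log 2 + -ε * n) := by
    rw [Real.exp_add, Real.exp_log (by norm_num : (0 : ℝ) < 2), ← hcast]
    calc Real.exp (-B * ((m - n : ℕ) : ℝ)) ≤ ‖z ^ (m - n) - 1‖ := h1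
      _ = ‖z ^ m - z ^ n‖ := h2
      _ ≤ ‖z ^ m - 1‖ + ‖z ^ n - 1‖ := h3
      _ < 2 * Real.exp (-ε * n) := by linarith
  have h6 := Real.exp_lt_exp.1 h5
  have h7 : 2 * Real.log 2 ≤ ε * n := by
    rw [div_le_iff₀ hε] at hbig
    linarith
  have h8 : ε * n / 2 ≤ B * ((m : ℝ) - n) := by nlinarith
  have h9 : ε / (2 * B) * n ≤ (m : ℝ) - n := by
    have e1 : ε / (2 * B) * n = (ε * n / 2) / B := by
      field_simp
    rw [e1, div_le_iff₀ hB]
    linarith
  linarith

end Pool.Agent.Work.LAG.SPA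

namespace Pool.Agent.Work.LAG

open Pool.Agent.Work.LAG.SPA in
theorem stmt_SPA : Stmt_SPA := by
  intro z B hz hB hlow ε hε
  obtain ⟨n₀, hn₀⟩ := exists_nat_ge (2 * Real.log 2 / ε)
  set E : Set ℕ := {n : ℕ | ‖z ^ n - 1‖ < Real.exp (-ε * n)} with hE
  set E' : Set ℕ := {n : ℕ | n ∈ E ∧ n₀ + 1 ≤ n} with hE'
  have hsub : E ⊆ {n : ℕ | n < n₀ + 1} ∪ E' := by
    intro n hn
    by_cases h : n < n₀ + 1
    · exact Or.inl h
    · exact Or.inr ⟨hn, not_lt.1 h⟩
  refine not_dvg_of_subset hsub (not_dvg_union (not_dvg_of_finite (Set.finite_lt_nat _)) ?_)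
  by_cases hfin : E'.Finite
  · exact not_dvg_of_finite hfin
  have hinf : ({n : ℕ | n ∈ E'}).Infinite := hfin
  unfold Dvg
  rw [not_not]
  set ρ : ℝ := 1 + ε / (2 * B) with hρ
  have hρ1 : 1 < ρ := by
    have : 0 < ε / (2 * B) := by positivity
    linarith
  have hmem : ∀ i : ℕ, Nat.nth (fun n => n ∈ E') i ∈ E' := fun i =>
    Nat.nth_mem_of_infinite hinf i
  have hgrow : ∀ i : ℕ, ρ ^ i ≤ (Nat.nth (fun n => n ∈ E') i : ℝ) := by
    intro i
    induction i with
    | zero =>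
      have h0 := (hmem 0).2
      have h1 : 1 ≤ Nat.nth (fun n => n ∈ E') 0 := by omega
      rw [pow_zero]
      exact_mod_cast h1
    | succ i ih =>
      have h1 := hmem i
      have h2 := hmem (i + 1)
      have hlt : Nat.nth (fun n => n ∈ E') i < Nat.nth (fun n => n ∈ E') (i + 1) :=
        Nat.nth_strictMono hinf (Nat.lt_succ_self i)
      have hbig : 2 * Real.log 2 / ε ≤ (Nat.nth (fun n => n ∈ E') i : ℝ) := by
        refine hn₀.trans ?_
        have : n₀ ≤ Nat.nth (fun n => n ∈ E') i := by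
          have := h1.2
          omega
        exact_mod_cast this
      have h3 := gap hz hB hε hlow hlt h1.1 h2.1 hbig
      calc ρ ^ (i + 1) = ρ * ρ ^ i := by ring
        _ ≤ ρ * (Nat.nth (fun n => n ∈ E') i : ℝ) :=
          mul_le_mul_of_nonneg_left ih (by linarith)
        _ ≤ _ := h3
  have hinj : Function.Injective (Nat.nth (fun n => n ∈ E')) := Nat.nth_injective hinf
  rw [← hinj.summable_iff (f := Set.indicator E' (fun q : ℕ => (1 : ℝ) / q))]
  · refine Summable.of_nonneg_of_le (fun i => ?_) (fun i => ?_)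
      (summable_geometric_of_lt_one (r := ρ⁻¹) (by positivity) (inv_lt_one_of_one_lt₀ hρ1))
    · exact Set.indicator_nonneg (fun _ _ => by positivity) _
    · rw [Function.comp_apply, Set.indicator_of_mem (hmem i), inv_pow, one_div]
      exact inv_anti₀ (by positivity) (hgrow i)
  · intro x hx
    refine Set.indicator_of_notMem (fun h => hx ?_) _
    rw [Nat.range_nth_of_infinite hinf]
    exact h

end Pool.Agent.Work.LAG
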