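import Pool.Agent.Work.MP_7f9bcc_LAG.Base

set_option autoImplicit false

/-! Block TOR: an infinite domain generated by finitely many roots of unity: no prime is
invertible. -/

namespace Pool.Agent.Work.LAG

theorem stmt_TOR : Stmt_TOR := by
  intro D _ _ _ T hT hT1 htop q hq hu
  have hint : ∀ x ∈ T, IsIntegral ℤ x := by
    intro x hx
    obtain ⟨n, hn, hxn⟩ := hT1 x hx
    refine IsIntegral.of_pow (Nat.lt_of_lt_of_le Nat.zero_lt_one hn) ?_
    rw [hxn]
    exact isIntegral_one
  have hfin : Module.Finite ℤ D := by
    refine ⟨?_⟩
    have h := fg_adjoin_of_finite (R := ℤ) hT hint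
    rw [htop] at h
    exact h
  have : Algebra.IsIntegral ℤ D := inferInstance
  -- the characteristic is zero
  have hchar : CharZero D := by
    obtain ⟨p, hp⟩ := CharP.exists D
    rcases Nat.eq_zero_or_pos p with h0 | hpos
    · subst h0
      exact CharP.charP_to_charZero D
    · exfalso
      have hfinite : Finite D := by
        refine Module.finite_of_fg_torsion D ?_
        intro x
        refine ⟨⟨(p : ℤ), ?_⟩, ?_⟩
        · rw [mem_nonZeroDivisors_iff_ne_zero]
          exact_mod_cast hpos.ne'
        · change (p : ℤ) • x = 0
          rw [zsmul_eq_mul]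
          have : ((p : ℤ) : D) = 0 := by
            rw [Int.cast_natCast]
            exact CharP.cast_eq_zero D p
          rw [this, zero_mul]
      exact not_finite D
  have : FaithfulSMul ℤ D := by
    rw [faithfulSMul_iff_algebraMap_injective]
    intro a b hab
    simpa using hab
  have hloc : IsUnit (q : ℤ) := by
    have h1 : IsUnit (algebraMap ℤ D (q : ℤ)) := by
      simpa using hu
    exact (isUnit_map_iff (algebraMap ℤ D) (q : ℤ)).mp h1
  rw [Int.isUnit_iff] at hloc
  have := hq.two_le
  rcases hloc with h | h <;> omega

end Pool.Agent.Work.LAG
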