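import Pool.Agent.Work.MP_7f9bcc_LAG.Base

set_option autoImplicit false

/-!
Block TORE: the torsion exponent of the abelianisation of a subgroup of finite index.
-/

namespace Pool.Agent.Work.LAG

theorem TORE.exp (A : Type) [AddCommGroup A] [Module.Finite ℤ A] :
    ∃ m : ℕ, 1 ≤ m ∧ ∀ x : A, (∃ j : ℕ, 1 ≤ j ∧ j • x = 0) → m • x = 0 := by
  have hT : Finite (Submodule.torsion ℤ A) :=
    Module.finite_of_fg_torsion _ (Submodule.torsion_isTorsion)
  refine ⟨Nat.card (Submodule.torsion ℤ A), Nat.one_le_iff_ne_zero.2 Nat.card_pos.ne', ?_⟩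
  rintro x ⟨j, hj, hx⟩
  have hxT : x ∈ Submodule.torsion ℤ A := by
    rw [Submodule.mem_torsion_iff]
    refine ⟨⟨(j : ℤ), mem_nonZeroDivisors_iff_ne_zero.2 (by omega)⟩, ?_⟩
    rw [Submonoid.mk_smul, natCast_zsmul, hx]
  have h := card_nsmul_eq_zero' (x := (⟨x, hxT⟩ : Submodule.torsion ℤ A))
  exact congrArg Subtype.val h

theorem stmt_TORE : Stmt_TORE := by
  intro G _ _ N _ _
  have h1 : Group.FG N := inferInstance
  have h2 : Group.FG (Abelianization N) := QuotientGroup.fg (commutator N)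
  have h3 : AddGroup.FG (AbK N) := AddGroup.fg_iff_mul_fg.2 h2
  have h4 : Module.Finite ℤ (AbK N) := Module.Finite.iff_addGroup_fg.2 h3
  obtain ⟨m, hm, h⟩ := TORE.exp (AbK N)
  refine ⟨m, hm, ?_⟩
  rintro x hx ⟨j, hj, hxj⟩
  have key : ∀ n : ℕ, x ^ n ∈ ⁅N, N⁆ ↔ n • cl N ⟨x, hx⟩ = 0 := by
    intro n
    have e1 : n • cl N ⟨x, hx⟩ = cl N (⟨x, hx⟩ ^ n) := by
      unfold cl
      rw [map_pow, ofMul_pow]
    rw [e1, cl_eq_zero_iff, ← Subgroup.map_subtype_commutator, Subgroup.mem_map]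
    constructor
    · rintro ⟨y, hy, hyx⟩
      have : y = ⟨x, hx⟩ ^ n := Subtype.ext hyx
      rwa [← this]
    · intro hy
      exact ⟨_, hy, rfl⟩
  exact (key m).2 (h _ ⟨j, hj, (key j).1 hxj⟩)

end Pool.Agent.Work.LAG
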