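import Pool.Agent.Work.MP_7f9bcc_LAG.Base

/-!
Block TWI (helper45): the elements `(a t) ^ q t ^ (k - q)` are in different orbits.
-/

set_option autoImplicit false

namespace Pool.Agent.Work.LAG.TWI

open Polynomial

variable {G : Type} [Group G] (K : Subgroup G) [K.Normal]

theorem cact_pow (t : G) (k : ℕ) : cact K (t ^ k) = cact K t ^ k := by
  induction k with
  | zero => rw [pow_zero, pow_zero, cact_one]
  | succ k ih => rw [pow_succ, pow_succ, cact_mul, ih]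

theorem tw_mem (z t : G) (hz : z ∈ K) (k : ℕ) : (z * t) ^ k * (t ^ k)⁻¹ ∈ K := by
  induction k with
  | zero => simp
  | succ k ih =>
    have e : (z * t) ^ (k + 1) * (t ^ (k + 1))⁻¹ =
        ((z * t) ^ k * (t ^ k)⁻¹) * (t ^ k * z * (t ^ k)⁻¹) := by
      rw [pow_succ, pow_succ]
      group
    rw [e]
    exact K.mul_mem ih (Subgroup.Normal.conj_mem inferInstance z hz _)

theorem tw_cl (z t : G) (hz : z ∈ K) (k : ℕ) :
    cl K ⟨(z * t) ^ k * (t ^ k)⁻¹, tw_mem K z t hz k⟩ = aeval (cact K t) (NN k) (cl K ⟨z, hz⟩) := by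
  induction k with
  | zero =>
    have e : (⟨(z * t) ^ 0 * (t ^ 0)⁻¹, tw_mem K z t hz 0⟩ : K) = 1 := by
      ext; simp
    rw [e, cl_one]
    simp [NN]
  | succ k ih =>
    have hc : t ^ k * z * (t ^ k)⁻¹ ∈ K := Subgroup.Normal.conj_mem inferInstance z hz _
    have e : (⟨(z * t) ^ (k + 1) * (t ^ (k + 1))⁻¹, tw_mem K z t hz (k + 1)⟩ : K) =
        ⟨(z * t) ^ k * (t ^ k)⁻¹, tw_mem K z t hz k⟩ * ⟨t ^ k * z * (t ^ k)⁻¹, hc⟩ := by
      ext
      rw [Subgroup.coe_mul]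
      simp only
      rw [pow_succ, pow_succ]
      group
    have e2 : (⟨t ^ k * z * (t ^ k)⁻¹, hc⟩ : K) = (MulAut.conjNormal (t ^ k) ⟨z, hz⟩ : K) := by
      ext
      rw [MulAut.conjNormal_apply]
    have e3 : NN (k + 1) = NN k + X ^ k := by
      rw [NN, NN, Finset.sum_range_succ]
    rw [e, cl_mul, ih, e2, ← cact_cl, cact_pow, e3, map_add, map_pow, aeval_X,
      LinearMap.add_apply]

end Pool.Agent.Work.LAG.TWI

namespace Pool.Agent.Work.LAG

open Polynomial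

theorem stmt_TWI : Stmt_TWI := by
  intro G _ K hK t a ha E hE hkl hcl k q k' q' hk hq hqk hk' hq' hqk' α hα
  have hmap : ∀ x ∈ K, α x ∈ K := by
    intro x hx
    have h := (Subgroup.characteristic_iff_le_comap.mp hK) α
    exact h hx
  have hqk1 : q ≤ k := Nat.le_of_dvd hk hqk
  have hqk1' : q' ≤ k' := Nat.le_of_dvd hk' hqk'
  have hx : (a * t) ^ q * (t ^ q)⁻¹ ∈ K := TWI.tw_mem K a t ha q
  have hx' : (a * t) ^ q' * (t ^ q')⁻¹ ∈ K := TWI.tw_mem K a t ha q'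
  have eg : (a * t) ^ q * t ^ (k - q) = ((a * t) ^ q * (t ^ q)⁻¹) * t ^ k := by
    have : t ^ k = t ^ q * t ^ (k - q) := by rw [← pow_add, Nat.add_sub_cancel' hqk1]
    rw [this]
    group
  have eg' : (a * t) ^ q' * t ^ (k' - q') = ((a * t) ^ q' * (t ^ q')⁻¹) * t ^ k' := by
    have : t ^ k' = t ^ q' * t ^ (k' - q') := by rw [← pow_add, Nat.add_sub_cancel' hqk1']
    rw [this]
    group
  rw [eg, eg', map_mul, map_pow] at hα
  have h1 : (α t) ^ k * (t ^ k')⁻¹ ∈ K := by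
    have e : (α t) ^ k * (t ^ k')⁻¹ =
        (α ((a * t) ^ q * (t ^ q)⁻¹))⁻¹ * ((a * t) ^ q' * (t ^ q')⁻¹) := by
      rw [eq_inv_mul_iff_mul_eq, ← mul_assoc, hα, mul_assoc, mul_inv_cancel, mul_one]
    rw [e]
    exact K.mul_mem (K.inv_mem (hmap _ hx)) hx'
  obtain ⟨hkk, hy⟩ := hkl α k k' hk hk' h1
  refine ⟨hkk, ?_⟩
  subst hkk
  by_contra hne
  obtain ⟨y, hyd⟩ : ∃ y, y = α t * t⁻¹ := ⟨_, rfl⟩
  rw [← hyd] at hy
  have hyt : α t = y * t := by rw [hyd, inv_mul_cancel_right]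
  have haa : α a ∈ K := hmap a ha
  have hz : α a * y ∈ K := K.mul_mem haa hy
  -- the class of `α x`
  have hax : cl K ⟨α ((a * t) ^ q * (t ^ q)⁻¹), hmap _ hx⟩ =
      aeval (cact K t) (NN q) (cl K ⟨α a, haa⟩) := by
    have e : (⟨α ((a * t) ^ q * (t ^ q)⁻¹), hmap _ hx⟩ : K) =
        ⟨(α a * y * t) ^ q * (t ^ q)⁻¹, TWI.tw_mem K _ t hz q⟩ *
          (⟨(y * t) ^ q * (t ^ q)⁻¹, TWI.tw_mem K y t hy q⟩)⁻¹ := by
      ext
      rw [Subgroup.coe_mul, Subgroup.coe_inv]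
      simp only
      rw [map_mul, map_inv, map_pow, map_pow, map_mul, hyt, mul_inv_rev, inv_inv, mul_assoc (α a)]
      group
    rw [e, cl_mul, cl_inv, TWI.tw_cl K _ t hz, TWI.tw_cl K y t hy]
    have e2 : (⟨α a * y, hz⟩ : K) = ⟨α a, haa⟩ * ⟨y, hy⟩ := rfl
    rw [e2, cl_mul, map_add, add_neg_cancel_right]
  have hmain : aeval (cact K t) (NN q) (cl K ⟨α a, haa⟩) +
      aeval (cact K t) (NN k) (cl K ⟨y, hy⟩) = aeval (cact K t) (NN q') (cl K ⟨a, ha⟩) := by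
    rw [← hax, ← TWI.tw_cl K y t hy k, ← TWI.tw_cl K a t ha q', ← cl_mul]
    congr 1
    ext
    rw [Subgroup.coe_mul]
    simp only
    rw [← hyt, ← mul_assoc, hα, mul_assoc, mul_inv_cancel, mul_one]
  obtain ⟨M, hM⟩ := NN_dvd hqk
  obtain ⟨w, hw⟩ : ∃ w, w = cl K ⟨α a, haa⟩ + aeval (cact K t) M (cl K ⟨y, hy⟩) := ⟨_, rfl⟩
  have hw2 : aeval (cact K t) (NN q') (cl K ⟨a, ha⟩) = aeval (cact K t) (NN q) w := by
    rw [← hmain, hw, map_add, hM, map_mul, Module.End.mul_apply]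
  obtain ⟨p1, p2, hp⟩ := NN_coprime_of_prime (hE q hq) (hE q' hq') hne
  have hfin : cl K ⟨a, ha⟩ = aeval (cact K t) (NN q)
      (aeval (cact K t) p1 (cl K ⟨a, ha⟩) + aeval (cact K t) p2 w) := by
    have e1 : cl K ⟨a, ha⟩ = aeval (cact K t) (p1 * NN q + p2 * NN q') (cl K ⟨a, ha⟩) := by
      rw [hp, map_one, Module.End.one_apply]
    have e2 : aeval (cact K t) (p1 * NN q) (cl K ⟨a, ha⟩) =
        aeval (cact K t) (NN q) (aeval (cact K t) p1 (cl K ⟨a, ha⟩)) := by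
      rw [mul_comm, map_mul, Module.End.mul_apply]
    have e3 : aeval (cact K t) (p2 * NN q') (cl K ⟨a, ha⟩) =
        aeval (cact K t) (NN q) (aeval (cact K t) p2 w) := by
      rw [map_mul, Module.End.mul_apply, hw2, ← Module.End.mul_apply, ← Module.End.mul_apply,
        ← map_mul, ← map_mul, mul_comm]
    rw [map_add, ← e2, ← e3, ← LinearMap.add_apply, ← map_add]
    exact e1
  have hs : (∑ i ∈ Finset.range q, cact K t ^ i) = aeval (cact K t) (NN q) := by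
    rw [NN, map_sum]
    simp only [map_pow, aeval_X]
  apply hcl q hq (aeval (cact K t) p1 (cl K ⟨a, ha⟩) + aeval (cact K t) p2 w)
  rw [hs]
  exact hfin

end Pool.Agent.Work.LAG
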