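import Pool.Agent.Work.MP_7f9bcc_LAG.PRS
import Pool.Agent.Work.MP_7f9bcc_LAG.CNT
import Pool.Agent.Work.MP_7f9bcc_LAG.TWI
import Pool.Agent.Work.MP_7f9bcc_LAG.CONT
import Pool.Agent.Work.MP_7f9bcc_LAG.DIVT
import Pool.Agent.Work.MP_7f9bcc_LAG.TORE
import Pool.Agent.Work.MP_7f9bcc_LAG.CORE
import Pool.Agent.Work.MP_7f9bcc_LAG.RED
import Pool.Agent.Work.MP_7f9bcc_LAG.INFA
import Pool.Agent.Work.MP_7f9bcc_LAG.MODF
import Pool.Agent.Work.MP_7f9bcc_LAG.MAXP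
import Pool.Agent.Work.MP_7f9bcc_LAG.NAK
import Pool.Agent.Work.MP_7f9bcc_LAG.PIG
import Pool.Agent.Work.MP_7f9bcc_LAG.TOR
import Pool.Agent.Work.MP_7f9bcc_LAG.CHE
import Pool.Agent.Work.MP_7f9bcc_LAG.ALPHA
import Pool.Agent.Work.MP_7f9bcc_LAG.GAMMA
import Pool.Agent.Work.MP_7f9bcc_LAG.BETA
import Pool.Agent.Work.MP_7f9bcc_LAG.INF
import Pool.Agent.Work.MP_7f9bcc_LAG.DOM
import Pool.Agent.Work.MP_7f9bcc_LAG.ALG
import Pool.Agent.Work.MP_7f9bcc_LAG.LIO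
import Pool.Agent.Work.MP_7f9bcc_LAG.SPA
import Pool.Agent.Work.MP_7f9bcc_LAG.MAH
import Pool.Agent.Work.MP_7f9bcc_LAG.RES
import Pool.Agent.Work.MP_7f9bcc_LAG.AN
import Pool.Agent.Work.MP_7f9bcc_LAG.FIN

set_option autoImplicit false

namespace Pool.Agent.Work.LAG

theorem main_an : Stmt_AN := stmt_AN stmt_LIO stmt_SPA stmt_MAH stmt_RES

theorem main_inf : Stmt_INF :=
  stmt_INF (stmt_ALPHA stmt_CHE) (stmt_GAMMA stmt_CHE) (stmt_BETA stmt_CHE main_an)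

theorem main_alg : Stmt_ALG :=
  stmt_ALG stmt_MAXP stmt_NAK stmt_PIG (stmt_DOM stmt_TOR main_inf)

theorem main : Stmt_MAIN :=
  stmt_MAIN stmt_PRS stmt_CNT stmt_TWI (stmt_DIVT stmt_CONT) stmt_TORE (stmt_RED stmt_CORE)
    stmt_INFA stmt_MODF main_alg

end Pool.Agent.Work.LAG
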